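import Pool.Agent.Q78.FE.Stm

/-!
Project FE: domination of the product of the weights of the attached gadgets.
-/

set_option autoImplicit false

namespace Q277.FE

open Finset H974 Pool.Agent.H160R2.CV Pool.Agent.H160R2.CV.Quad H362P Q78.FE

theorem norm_ei (t : ℝ) : ‖ei t‖ = 1 := by
  unfold ei
  exact Complex.norm_exp_ofReal_mul_I t

theorem wt_nonneg (p θ : ℝ) (z : Vtx) (u : ℕ) (F : Finset Edg) : 0 ≤ wt p θ z u F :=
  norm_nonneg _

theorem wt_le_one (hCEX : S_CEX) {p : ℝ} (h0 : 0 ≤ p) (h1 : p ≤ 1) (θ : ℝ) (z : Vtx) (u : ℕ)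
    (F : Finset Edg) : wt p θ z u F ≤ 1 := by
  unfold wt
  refine ((hCEX (fun _ : Edg => p) (Bl z u)).1 (okq h0 h1) _).trans ?_
  simp only [norm_ei]
  exact (Ex_const _ _ _).le

theorem wa_nonneg (p θ : ℝ) (o z : Vtx) (u : ℕ) (F : Finset Edg) : 0 ≤ wa p θ o z u F := by
  unfold wa
  split_ifs
  · exact wt_nonneg _ _ _ _ _
  · exact zero_le_one

theorem wa_le_one (hCEX : S_CEX) {p : ℝ} (h0 : 0 ≤ p) (h1 : p ≤ 1) (θ : ℝ) (o z : Vtx) (u : ℕ)
    (F : Finset Edg) : wa p θ o z u F ≤ 1 := by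
  unfold wa
  split_ifs
  · exact wt_le_one hCEX h0 h1 _ _ _ _
  · exact le_rfl

/-- the weight only depends on the box of radius `9u` -/
theorem wt_congr (hLOC : S_LOC) (p θ : ℝ) {z : Vtx} {u : ℕ} (hu : 1 ≤ u) {F F' : Finset Edg}
    (h : ∀ e ∈ bo z (9 * u), (e ∈ F ↔ e ∈ F')) : wt p θ z u F = wt p θ z u F' := by
  unfold wt
  congr 2
  funext G
  congr 2
  unfold Yz
  refine Finset.sum_congr rfl fun v _ => ?_
  refine ind_congr ?_
  refine (hLOC z u hu _ _).2.2.1 ?_ v
  ext e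
  simp only [Finset.mem_inter, Finset.mem_union, Finset.mem_sdiff]
  constructor
  · rintro ⟨h1, h2⟩
    have := h e h2
    tauto
  · rintro ⟨h1, h2⟩
    have := h e h2
    tauto

/-- the crossing of the strip by the cluster -/
theorem crossing {s : ℕ} (hs : 1 ≤ s) {o : Vtx} (ho : o.1 < s) {F : Finset Edg}
    (h : fl (8 * s) o 0 F) : ∃ γ : Finset Edg, γ ⊆ F ∧
      γ ⊆ LRE s (5 * s) (-(8 * (s : ℤ))) (8 * s) ∧ (∀ e ∈ γ, Reach (↑F) o (src e)) ∧
      ∃ y y' : ℤ, (-(8 * (s : ℤ)) ≤ y' ∧ y' ≤ 8 * s) ∧ Reach (↑γ) (s, y) (5 * s, y') := by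
  classical
  obtain ⟨v, hv, hr⟩ := h
  have hv' : v.1 = ((8 * s : ℕ) : ℤ) := hv
  push_cast at hv'
  set G : Set Edg := (↑F ∩ ↑(boxE (8 * s)) : Set Edg) with hG
  obtain ⟨y1, y2, k1, k2, k3, k4⟩ := sub_LR (G := G) (a := s) (b := 5 * s)
    (c := -(8 * (s : ℤ))) (d := 8 * s) (by omega)
    (by
      rintro x y ⟨-, h⟩ _ _
      unfold boxE at h
      simp only [mem_coe, mem_RE_true] at h
      push_cast at h
      omega)
    (by
      rintro x y ⟨-, h⟩ _ _
      unfold boxE at h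
      simp only [mem_coe, mem_RE_false] at h
      push_cast at h
      omega) hr ho.le (by omega)
  refine ⟨(F ∩ LRE s (5 * s) (-(8 * (s : ℤ))) (8 * s)).filter (fun e => Reach G o (src e)),
    ?_, ?_, ?_, y1, y2, k2, ?_⟩
  · exact (Finset.filter_subset _ _).trans Finset.inter_subset_left
  · exact (Finset.filter_subset _ _).trans Finset.inter_subset_right
  · intro e he
    exact (Finset.mem_filter.1 he).2.mono Set.inter_subset_left
  · have key : ∀ x, Reach (G ∩ ↑(LRE (s : ℤ) (5 * s) (-(8 * (s : ℤ))) (8 * s))) (s, y1) x →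
        Reach (↑((F ∩ LRE s (5 * s) (-(8 * (s : ℤ))) (8 * s)).filter
          (fun e => Reach G o (src e)))) (s, y1) x ∧ Reach G o x := by
      intro x hx
      induction hx with
      | refl => exact ⟨Reach.refl _ _, k4⟩
      | @tail x x' _ hst ih =>
        obtain ⟨e, ⟨heG, heL⟩, hcase⟩ := hst
        have hsrc : Reach G o (src e) := by
          rcases hcase with ⟨h1, -⟩ | ⟨-, h2⟩
          · rw [h1]; exact ih.2
          · exact ih.2.trans (Adj.reach ⟨e, heG, Or.inr ⟨rfl, h2⟩⟩)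
        have hmem : e ∈ (F ∩ LRE s (5 * s) (-(8 * (s : ℤ))) (8 * s)).filter
            (fun e => Reach G o (src e)) :=
          Finset.mem_filter.2 ⟨Finset.mem_inter.2 ⟨Finset.mem_coe.1 heG.1, Finset.mem_coe.1 heL⟩,
            hsrc⟩
        exact ⟨ih.1.trans (Adj.reach ⟨e, Finset.mem_coe.2 hmem, hcase⟩),
          ih.2.trans (Adj.reach ⟨e, heG, hcase⟩)⟩
    exact (key _ k3).1

/-- E-DOM -/
theorem t_DOM (hCEX : S_CEX) (hLOC : S_LOC) (hREG : S_REG) (hOPEN : S_OPEN)
    (hPATH : S_PATH) (hCOL : S_COL) (hTOUCH : S_TOUCH) : S_DOM := by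
  classical
  intro s u n hu hdvd hus hn
  have hs1 : 1 ≤ s := by omega
  set X : ℕ → ℤ := fun k => (s : ℤ) + 200 * u * k + 110 * u with hX
  set Good : Finset Vtx → Prop := fun T => Reg (s : ℤ) (5 * s) (-(9 * (s : ℤ))) (9 * s) T ∧
    ∀ x y : ℤ, (s : ℤ) ≤ x → x < 5 * s → 8 * (s : ℤ) ≤ y → y ≤ 9 * s → (x, y) ∈ T with hGood
  have hXr : ∀ k, k < s / (100 * u) → (s : ℤ) + 110 * u ≤ X k ∧ X k + 90 * u ≤ 3 * s := by
    intro k hk
    have h1 : (k + 1) * (100 * u) ≤ s := by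
      have h2 : k + 1 ≤ s / (100 * u) := hk
      exact (Nat.mul_le_mul_right _ h2).trans (Nat.div_mul_le_self _ _)
    have h3 : ((k : ℤ) + 1) * (100 * u) ≤ s := by exact_mod_cast h1
    simp only [hX]
    constructor
    · have : (0 : ℤ) ≤ 200 * u * k := by positivity
      linarith
    · nlinarith
  have hcol : ∀ T k, k < s / (100 * u) → Good T → ∃ j : ℤ,
      Dbx (X k, 20 * (u : ℤ) * j + 10 * u) u T ∧ 20 * (u : ℤ) * j + 10 * u ≤ 8 * s + 30 * u ∧
      -(9 * (s : ℤ)) ≤ 20 * (u : ℤ) * j + 10 * u - 9 * u - 1 ∧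
      ∃ e ∈ bdT s (5 * s) (-(9 * (s : ℤ))) (9 * s) T,
        nv (src e - (X k, 20 * (u : ℤ) * j + 10 * u)) ≤ 30 * u := by
    intro T k hk hT
    obtain ⟨h1, h2⟩ := hXr k hk
    exact hCOL s (5 * s) (-(9 * (s : ℤ))) (9 * s) (8 * s) (X k) u T hu hT.1 hT.2 (by omega)
      (by omega) (by omega) (by omega)
  let Y : Finset Vtx → ℕ → ℤ := fun T k =>
    if h : k < s / (100 * u) ∧ Good T then (hcol T k h.1 h.2).choose else 0
  have hY : ∀ T k, (hk : k < s / (100 * u)) → (hT : Good T) →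
      Dbx (X k, 20 * (u : ℤ) * Y T k + 10 * u) u T ∧
      20 * (u : ℤ) * Y T k + 10 * u ≤ 8 * s + 30 * u ∧
      -(9 * (s : ℤ)) ≤ 20 * (u : ℤ) * Y T k + 10 * u - 9 * u - 1 ∧
      ∃ e ∈ bdT s (5 * s) (-(9 * (s : ℤ))) (9 * s) T,
        nv (src e - (X k, 20 * (u : ℤ) * Y T k + 10 * u)) ≤ 30 * u := by
    intro T k hk hT
    have h1 : Y T k = (hcol T k hk hT).choose := dif_pos ⟨hk, hT⟩
    rw [h1]
    exact (hcol T k hk hT).choose_spec
  have hYr : ∀ T k, k < s / (100 * u) → 20 * (u : ℤ) * Y T k + 10 * u ≤ 8 * s + 30 * u ∧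
      -(9 * (s : ℤ)) ≤ 20 * (u : ℤ) * Y T k + 10 * u - 9 * u - 1 := by
    intro T k hk
    by_cases hT : Good T
    · exact ⟨(hY T k hk hT).2.1, (hY T k hk hT).2.2.1⟩
    · have h1 : Y T k = 0 := dif_neg fun h => hT h.2
      rw [h1]
      constructor
      · omega
      · omega
  have hnv : ∀ T k k', k < s / (100 * u) → k' < s / (100 * u) → k ≠ k' →
      200 * u ≤ nv (((X k, 20 * (u : ℤ) * Y T k + 10 * u) : Vtx) -
        (X k', 20 * (u : ℤ) * Y T k' + 10 * u)) := by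
    intro T k k' _ _ hne
    unfold nv
    refine le_trans ?_ (le_max_left _ _)
    simp only [Prod.fst_sub, hX]
    have h1 : ((s : ℤ) + 200 * u * k + 110 * u - ((s : ℤ) + 200 * u * k' + 110 * u)) =
        200 * u * ((k : ℤ) - k') := by ring
    rw [h1, Int.natAbs_mul]
    have h2 : (200 * (u : ℤ)).natAbs = 200 * u := by omega
    have h3 : 1 ≤ ((k : ℤ) - k').natAbs := by omega
    rw [h2]
    exact Nat.le_mul_of_pos_right _ h3
  refine ⟨fun T k => (X k, 20 * (u : ℤ) * Y T k + 10 * u), ?_, hnv, ?_⟩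
  · intro T k hk
    obtain ⟨h1, h2⟩ := hXr k hk
    obtain ⟨h3, h4⟩ := hYr T k hk
    unfold bo boxE
    apply RE_subset <;> push_cast <;> omega
  · intro p θ o F hp0 hp1 ho hF hgg
    have hfl : fl (8 * s) o 0 F := by
      by_contra hcon
      apply hgg
      unfold gg
      rw [ind_not_of hcon, zero_div]
    obtain ⟨γ, hγF, hγL, hγo, y, y', hy', hr⟩ := crossing hs1 ho hfl
    obtain ⟨j, hj1, hAl, ⟨e1, he1γ, he1b⟩, hrows⟩ := hPATH s (5 * s) (-(9 * (s : ℤ))) (9 * s) (8 * s)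
      (by omega) (by omega) (by omega) F γ hγF
      (by
        intro e he
        have h1 := hγL he
        obtain ⟨x0, y0, _ | _⟩ := e
        · rw [mem_LRE_false] at h1 ⊢; omega
        · rw [mem_LRE_true] at h1 ⊢; omega)
      (by
        intro e he
        have h1 := hγL he
        obtain ⟨x0, y0, _ | _⟩ := e
        · rw [mem_LRE_false] at h1
          simp only [src_mk, tgt_false]
          refine ⟨by omega, by omega, by simp⟩
        · rw [mem_LRE_true] at h1
          simp only [src_mk, tgt_true]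
          refine ⟨by omega, by omega, ?_⟩
          rintro ⟨-, h2⟩
          omega)
      ⟨y, y', by omega, hr⟩
    refine ⟨j, hj1, hAl, fun G hG => ?_⟩
    set T := Tn s (5 * s) (-(9 * (s : ℤ))) (9 * s) F j with hTdef
    have hRT : Reg (s : ℤ) (5 * s) (-(9 * (s : ℤ))) (9 * s) T :=
      hREG s (5 * s) (-(9 * (s : ℤ))) (9 * s) (by omega) (by omega) F j hAl
    have hGT : Good T := ⟨hRT, hrows⟩
    have hbF : bdT s (5 * s) (-(9 * (s : ℤ))) (9 * s) T ⊆ F := by
      obtain ⟨j', rfl⟩ : ∃ j', j = j' + 1 := ⟨j - 1, by omega⟩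
      exact (hOPEN s (5 * s) (-(9 * (s : ℤ))) (9 * s) (by omega) (by omega) F j').1
    set ω := (F ∩ inT s (5 * s) (-(9 * (s : ℤ))) (9 * s) T) ∪
      (G \ inT s (5 * s) (-(9 * (s : ℤ))) (9 * s) T) with hω
    have hag : ∀ e ∈ inT s (5 * s) (-(9 * (s : ℤ))) (9 * s) T, (e ∈ ω ↔ e ∈ F) := by
      intro e he
      rw [hω, Finset.mem_union, Finset.mem_inter, Finset.mem_sdiff]
      tauto
    set z : ℕ → Vtx := fun k => (X k, 20 * (u : ℤ) * Y T k + 10 * u) with hz
    -- a linked gadget is attached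
    have hatt : ∀ k, k < s / (100 * u) → Gd (z k) u ω → Lk (z k) u ω →
        att o (z k) u F ∧ wt p θ (z k) u ω = wt p θ (z k) u F := by
      intro k hk hGd hLk
      obtain ⟨h1, h2⟩ := hXr k hk
      obtain ⟨hD, h3, h4, e0, he0, hn0⟩ := hY T k hk hGT
      obtain ⟨hin, hGdF, w, hw, hwall⟩ := hTOUCH s (5 * s) (-(9 * (s : ℤ))) (9 * s) (z k) u T F ω e0
        (by omega) (by omega) hu hRT hD (by simp only [hz]; omega) (by simp only [hz]; omega)
        (by simp only [hz]; omega) he0 hn0 hbF hag hGd hLk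
      refine ⟨⟨hGdF, w, hw, (hγo e1 he1γ).trans (hwall e1 he1b).symm⟩, ?_⟩
      exact wt_congr hLOC p θ hu fun e he => hag e (hin he)
    -- the comparison
    have hle : ∀ k, k < s / (100 * u) → wa p θ o (z k) u F ≤ Q78.FE.WW p θ (z k) u ω := by
      intro k hk
      unfold Q78.FE.WW
      by_cases hGL : Gd (z k) u ω ∧ Lk (z k) u ω
      · rw [if_pos hGL]
        obtain ⟨h1, h2⟩ := hatt k hk hGL.1 hGL.2
        unfold wa
        rw [if_pos h1, h2]
      · rw [if_neg hGL]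
        exact wa_le_one hCEX hp0 hp1 _ _ _ _ _
    have hinj : ∀ k ∈ range (s / (100 * u)), ∀ k' ∈ range (s / (100 * u)), z k = z k' → k = k' := by
      intro k hk k' hk' h
      by_contra hne
      have h1 := hnv T k k' (Finset.mem_range.1 hk) (Finset.mem_range.1 hk') hne
      have h2 : ((X k, 20 * (u : ℤ) * Y T k + 10 * u) : Vtx) =
        (X k', 20 * (u : ℤ) * Y T k' + 10 * u) := h
      rw [h2, sub_self] at h1
      unfold nv at h1
      simp only [Prod.fst_zero, Prod.snd_zero, Int.natAbs_zero, max_self] at h1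
      omega
    have hsub : (range (s / (100 * u))).image z ⊆ Jz s u := by
      intro v hv
      obtain ⟨k, hk, rfl⟩ := Finset.mem_image.1 hv
      rw [Finset.mem_range] at hk
      obtain ⟨h1, h2⟩ := hXr k hk
      obtain ⟨h3, h4⟩ := hYr T k hk
      obtain ⟨i0, hi0⟩ := hdvd
      have hi0' : (s : ℤ) = 20 * u * i0 := by exact_mod_cast hi0
      unfold Jz
      rw [Finset.mem_filter]
      refine ⟨?_, ⟨i0 + 10 * k + 5, Y T k, ?_⟩, ?_, ?_, ?_, ?_⟩
      · unfold bx
        rw [Finset.mem_product, Finset.mem_Icc, Finset.mem_Icc]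
        simp only [hz]
        push_cast
        omega
      · simp only [hz, hX]
        refine Prod.ext ?_ rfl
        simp only
        rw [hi0']
        ring
      · simp only [hz]; omega
      · simp only [hz]; omega
      · simp only [hz]; omega
      · simp only [hz]; omega
    calc ∏ v ∈ Jz s u, wa p θ o v u F
        = (∏ v ∈ Jz s u \ (range (s / (100 * u))).image z, wa p θ o v u F) *
          ∏ v ∈ (range (s / (100 * u))).image z, wa p θ o v u F := (Finset.prod_sdiff hsub).symm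
      _ ≤ 1 * ∏ v ∈ (range (s / (100 * u))).image z, wa p θ o v u F := by
          refine mul_le_mul_of_nonneg_right ?_ (Finset.prod_nonneg fun v _ => wa_nonneg _ _ _ _ _ _)
          exact Finset.prod_le_one (fun v _ => wa_nonneg _ _ _ _ _ _)
            (fun v _ => wa_le_one hCEX hp0 hp1 _ _ _ _ _)
      _ = ∏ k ∈ range (s / (100 * u)), wa p θ o (z k) u F := by
          rw [one_mul, Finset.prod_image hinj]
      _ ≤ ∏ k ∈ range (s / (100 * u)), Q78.FE.WW p θ (z k) u ω :=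
          Finset.prod_le_prod (fun k _ => wa_nonneg _ _ _ _ _ _)
            (fun k hk => hle k (Finset.mem_range.1 hk))

end Q277.FE
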