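import Pool.Agent.Q277.FE.DOM

/-!
Project FE: decay of the characteristic function.
-/

set_option autoImplicit false

namespace Q277.FE

open Finset H974 Pool.Agent.H160R2.CV Pool.Agent.H160R2.CV.Quad H362P Q78.FE

theorem hh_bound {p : ℝ} (h0 : 0 ≤ p) (h1 : p ≤ 1 / 2) {s : ℕ} (hs : 2 ≤ s) :
    hh p (4 * s) (18 * s) ≤ 1 - (1 / 2 : ℝ) ^ 95 := by
  have k1 : hh p (4 * (s : ℤ)) (18 * s) ≤ hh (1 / 2) (4 * s) (18 * s) :=
    hh_mono_param h0 h1 (by norm_num) _ _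
  have k2 := hh_dual (q := 1 / 2) (w := 4 * (s : ℤ)) (h := 18 * s) (by omega) (by omega)
  have e : (1 : ℝ) - 1 / 2 = 1 / 2 := by norm_num
  rw [e] at k2
  set m : ℤ := 2 * s - 1 with hm
  have k3 : (1 / 2 : ℝ) ^ 47 ≤ hh (1 / 2) (8 * m) (2 * m) :=
    rsw_p (p := 1 / 2) le_rfl (by norm_num) (n := m) (by omega) (by omega) le_rfl le_rfl
  have k4 : (1 / 2 : ℝ) ≤ hh (1 / 2) (2 * m) (2 * m) := hh_square _ (by omega)
  have k5 := hh_glue (q := 1 / 2) (by norm_num) (by norm_num) (w1 := 8 * m) (w2 := 8 * m)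
    (v := 2 * m) (h := 2 * m) (by omega) (by omega) (by omega) (by omega)
  have k6 : hh (1 / 2) (8 * m + 8 * m - 2 * m) (2 * m) ≤ hh (1 / 2) (18 * (s : ℤ) + 1) (4 * s - 1) :=
    hh_mono (by norm_num) (by norm_num) (by omega) (by omega) (by omega)
  have k7 : (1 / 2 : ℝ) ^ 95 ≤ hh (1 / 2) (8 * m) (2 * m) * hh (1 / 2) (8 * m) (2 * m) *
      hh (1 / 2) (2 * m) (2 * m) := by
    calc (1 / 2 : ℝ) ^ 95 = (1 / 2 : ℝ) ^ 47 * (1 / 2 : ℝ) ^ 47 * (1 / 2) := by norm_num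
      _ ≤ _ := by
        refine mul_le_mul (mul_le_mul k3 k3 (by positivity) ?_) k4 (by norm_num) ?_
        · exact hh_nonneg (by norm_num) (by norm_num) _ _
        · exact mul_nonneg (hh_nonneg (by norm_num) (by norm_num) _ _)
            (hh_nonneg (by norm_num) (by norm_num) _ _)
  linarith

theorem pow_decay {c : ℝ} (hc : 0 < c) (hc1 : c ≤ 1) : ∃ B : ℝ, 0 < B ∧ ∀ x : ℕ,
    (1 - c) ^ (x / 5) * (x : ℝ) ^ 12 ≤ B := by
  have hr0 : 0 ≤ 1 - c := by linarith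
  have hr1 : |1 - c| < 1 := by
    rw [abs_of_nonneg hr0]
    linarith
  obtain ⟨M, hM⟩ := (tendsto_pow_const_mul_const_pow_of_abs_lt_one 12 hr1).bddAbove_range
  have hM' : ∀ n : ℕ, (n : ℝ) ^ 12 * (1 - c) ^ n ≤ M := fun n => hM ⟨n, rfl⟩
  have hM0 : 0 ≤ M := by
    have := hM' 0
    simpa using this
  refine ⟨10 ^ 12 * (1 + M), by positivity, fun x => ?_⟩
  set y := x / 5 with hy
  have h1 : (x : ℝ) ≤ 5 * (y + 1) := by
    have : x ≤ 5 * (y + 1) := by omega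
    exact_mod_cast this
  have h2 : ((y : ℝ) + 1) ^ 12 ≤ 2 ^ 12 * (1 + (y : ℝ) ^ 12) := by
    rcases Nat.eq_zero_or_pos y with h | h
    · rw [h]
      norm_num
    · have h3 : (1 : ℝ) ≤ y := by exact_mod_cast h
      have h4 : ((y : ℝ) + 1) ^ 12 ≤ (2 * y) ^ 12 := pow_le_pow_left₀ (by linarith) (by linarith) _
      rw [mul_pow] at h4
      linarith
  have h3 : (x : ℝ) ^ 12 ≤ 10 ^ 12 * (1 + (y : ℝ) ^ 12) := by
    calc (x : ℝ) ^ 12 ≤ (5 * ((y : ℝ) + 1)) ^ 12 := pow_le_pow_left₀ (Nat.cast_nonneg x) h1 _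
      _ = 5 ^ 12 * ((y : ℝ) + 1) ^ 12 := mul_pow _ _ _
      _ ≤ 5 ^ 12 * (2 ^ 12 * (1 + (y : ℝ) ^ 12)) := mul_le_mul_of_nonneg_left h2 (by positivity)
      _ = _ := by ring
  have h4 : (1 - c) ^ y ≤ 1 := pow_le_one₀ hr0 (by linarith)
  have h5 : 0 ≤ (1 - c) ^ y := pow_nonneg hr0 _
  calc (1 - c) ^ y * (x : ℝ) ^ 12 ≤ (1 - c) ^ y * (10 ^ 12 * (1 + (y : ℝ) ^ 12)) :=
        mul_le_mul_of_nonneg_left h3 h5
    _ = 10 ^ 12 * ((1 - c) ^ y + (y : ℝ) ^ 12 * (1 - c) ^ y) := by ring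
    _ ≤ 10 ^ 12 * (1 + M) := by
        refine mul_le_mul_of_nonneg_left ?_ (by positivity)
        exact add_le_add h4 (hM' y)

theorem fin_case {V E η t c G B : ℝ} {x : ℕ} (hη : 0 < η) (hE : 0 ≤ E) (ht : 0 ≤ t)
    (hV : V ≤ E * (1 - c) ^ (x / 5) / η) (hc1 : c ≤ 1)
    (h1 : 1 + t ≤ G * (x : ℝ) ^ 2) (hB : (1 - c) ^ (x / 5) * (x : ℝ) ^ 12 ≤ B) :
    V ≤ B * G ^ 6 / η * E / (1 + t) ^ 6 := by
  have ht6 : 0 < (1 + t) ^ 6 := by positivity
  rw [le_div_iff₀ ht6]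
  have h2 : (1 + t) ^ 6 ≤ G ^ 6 * (x : ℝ) ^ 12 := by
    calc (1 + t) ^ 6 ≤ (G * (x : ℝ) ^ 2) ^ 6 := pow_le_pow_left₀ (by linarith) h1 _
      _ = _ := by ring
  have h3 : 0 ≤ E * (1 - c) ^ (x / 5) / η :=
    div_nonneg (mul_nonneg hE (pow_nonneg (by linarith) _)) hη.le
  calc V * (1 + t) ^ 6 ≤ E * (1 - c) ^ (x / 5) / η * (1 + t) ^ 6 :=
        mul_le_mul_of_nonneg_right hV ht6.le
    _ ≤ E * (1 - c) ^ (x / 5) / η * (G ^ 6 * (x : ℝ) ^ 12) := mul_le_mul_of_nonneg_left h2 h3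
    _ = E * G ^ 6 / η * ((1 - c) ^ (x / 5) * (x : ℝ) ^ 12) := by ring
    _ ≤ E * G ^ 6 / η * B := by
        refine mul_le_mul_of_nonneg_left hB ?_
        exact div_nonneg (mul_nonneg hE (by positivity)) hη.le
    _ = _ := by ring

theorem triv_case {V E t U : ℝ} (hE : 0 ≤ E) (ht : 0 ≤ t) (hV : V ≤ E) (hU : t ≤ U) :
    V ≤ (1 + U) ^ 6 * E / (1 + t) ^ 6 := by
  have ht6 : 0 < (1 + t) ^ 6 := by positivity
  rw [le_div_iff₀ ht6]
  have h1 : (1 + t) ^ 6 ≤ (1 + U) ^ 6 := pow_le_pow_left₀ (by linarith) (by linarith) _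
  calc V * (1 + t) ^ 6 ≤ E * (1 + t) ^ 6 := mul_le_mul_of_nonneg_right hV ht6.le
    _ ≤ E * (1 + U) ^ 6 := mul_le_mul_of_nonneg_left h1 hE
    _ = _ := by ring

theorem gg_nonneg (R : ℕ) (o : Vtx) (F : Finset Edg) : 0 ≤ gg R o F := by
  unfold gg nfl
  exact div_nonneg (ind_nonneg _) (Finset.sum_nonneg fun _ _ => ind_nonneg _)

theorem gg_le_one (R : ℕ) (o : Vtx) (F : Finset Edg) : gg R o F ≤ 1 := by
  unfold gg
  have h1 : ind (fl R o 0 F) ≤ nfl R o F := by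
    unfold nfl
    exact Finset.single_le_sum (f := fun i => ind (fl R o i F)) (fun _ _ => ind_nonneg _)
      (Finset.mem_univ 0)
  have h2 : 0 ≤ nfl R o F := (ind_nonneg _).trans h1
  exact div_le_one_of_le₀ h1 h2

theorem ei_neg (t : ℝ) : ei (-t) = (starRingEnd ℂ) (ei t) := by
  unfold ei
  rw [← Complex.exp_conj, map_mul, Complex.conj_ofReal, Complex.conj_I]
  push_cast
  ring_nf

theorem CEx_conj {E : Type} [DecidableEq E] (p : E → ℝ) (S : Finset E) (f : Finset E → ℂ) :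
    CEx p S (fun F => (starRingEnd ℂ) (f F)) = (starRingEnd ℂ) (CEx p S f) := by
  unfold CEx
  rw [map_sum]
  refine Finset.sum_congr rfl fun F _ => ?_
  rw [map_mul, Complex.conj_ofReal]

theorem NW_anti {κ a p : ℝ} {N m : ℕ} (h : NW κ a p N) (hm : m ≤ N) : NW κ a p m :=
  ⟨h.lo, h.hi, h.win.anti hm, fun k h1 h2 => h.arm k h1 (h2.trans hm)⟩

/-- F-FOUR -/
theorem t_FOUR (hCEX : S_CEX) (hONE : S_ONE) (hBIG : S_BIG) (hSTRIP : S_STRIP) : S_FOUR := by
  intro k0 hk0 κ a hκ ha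
  have hk3 : 3 ≤ k0 := hk0.1
  obtain ⟨b, hb, hone⟩ := hONE k0 hk0 κ a hκ ha
  obtain ⟨c1, hc1, hc11, hone⟩ := hone 4 (by norm_num)
  obtain ⟨c2, hc2, hc21, hbig⟩ := hBIG k0 (1 / b) hk3 (by positivity)
  obtain ⟨B1, hB1, hd1⟩ := pow_decay hc1 hc11
  obtain ⟨B2, hB2, hd2⟩ := pow_decay hc2 hc21
  set η : ℝ := (1 / 2 : ℝ) ^ 95 with hη
  have hη0 : 0 < η := by positivity
  set D : ℝ := 91 / 48 with hD
  have hD0 : 0 < D := by rw [hD]; norm_num
  have hD2 : D ≤ 2 := by rw [hD]; norm_num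
  have hD1 : 1 ≤ D := by rw [hD]; norm_num
  have hk0' : (0 : ℝ) < 20 * (k0 : ℝ) := by
    have : (0 : ℝ) < k0 := by exact_mod_cast (by omega : 0 < k0)
    positivity
  set L : ℝ := (20 * (k0 : ℝ)) ^ D with hL
  have hL0 : 0 < L := Real.rpow_pos_of_pos hk0' _
  have hpi := Real.pi_pos
  set C1 : ℝ := B1 * (1 + L / b) ^ 6 / η with hC1
  set C2 : ℝ := B2 * (1 + Real.pi * L) ^ 6 / η with hC2
  set C3 : ℝ := (1 + Real.pi * L * 8 ^ 2) ^ 6 with hC3
  set C4 : ℝ := (1 + L / b * 16 ^ 2) ^ 6 with hC4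
  have hC1' : 0 < C1 := by positivity
  have hC2' : 0 < C2 := by positivity
  have hC3' : 0 < C3 := by positivity
  have hC4' : 0 < C4 := by positivity
  refine ⟨C1 + C2 + C3 + C4 + 1, by positivity, ?_⟩
  intro p A s n o hs hNW hn ho q hq0 hqL
  have hp0 : 0 ≤ p := by linarith [hNW.lo]
  have hp1 : p ≤ 1 := by linarith [hNW.hi]
  have hok : Ok (fun _ : Edg => p) := okq hp0 hp1
  set E : ℝ := Ex (fun _ => p) (boxE n) q with hE
  have hE0 : 0 ≤ E := Ex_nonneg hok (fun F _ => hq0 F)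
  have h2A : 1 ≤ 2 ^ A := Nat.one_le_two_pow
  have hs2 : 2 ≤ s := by
    rw [hs]
    calc 2 ≤ 20 * k0 * 1 := by omega
      _ ≤ 20 * k0 * 2 ^ A := Nat.mul_le_mul_left _ h2A
  have hhb : hh p (4 * s) (18 * s) ≤ 1 - η := hh_bound hp0 hNW.hi hs2
  have hh1 : hh p (4 * s) (18 * s) < 1 := by linarith
  -- powers of two
  have hpow : ∀ i : ℕ, ((2 : ℝ) ^ i) ^ D ≤ ((2 : ℝ) ^ i) ^ 2 := by
    intro i
    have h1 : (1 : ℝ) ≤ (2 : ℝ) ^ i := one_le_pow₀ (by norm_num)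
    calc ((2 : ℝ) ^ i) ^ D ≤ ((2 : ℝ) ^ i) ^ (2 : ℝ) := Real.rpow_le_rpow_of_exponent_le h1 hD2
      _ = ((2 : ℝ) ^ i) ^ 2 := by norm_num
  have hM : (s : ℝ) ^ D = L * ((2 : ℝ) ^ A) ^ D := by
    rw [hs]
    push_cast
    rw [Real.mul_rpow hk0'.le (by positivity)]
  -- the trivial bound
  have htriv : ∀ θ : ℝ, ‖CEx (fun _ => p) (boxE n) (fun F => ((q F * gg (8 * s) o F : ℝ) : ℂ) *
      ei (θ * (Sz n o F : ℝ)))‖ ≤ E := by
    intro θ
    refine ((hCEX (fun _ : Edg => p) (boxE n)).1 hok _).trans ?_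
    refine Ex_mono hok fun F _ => ?_
    rw [norm_mul, norm_ei, mul_one, Complex.norm_real, Real.norm_eq_abs,
      abs_of_nonneg (mul_nonneg (hq0 F) (gg_nonneg _ _ _))]
    exact mul_le_of_le_one_right (hq0 F) (gg_le_one _ _ _)
  -- the strip lemma
  have hstrip : ∀ (θ cc : ℝ) (u x : ℕ), 1 ≤ u → s = 20 * u * x → 10 ≤ x → 0 ≤ cc → cc ≤ 1 →
      (∀ z : Vtx, Ex (fun _ => p) (bo z (90 * u)) (Q78.FE.WW p θ z u) ≤ 1 - cc) →
      ‖CEx (fun _ => p) (boxE n) (fun F => ((q F * gg (8 * s) o F : ℝ) : ℂ) *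
        ei (θ * (Sz n o F : ℝ)))‖ ≤ E * (1 - cc) ^ (x / 5) / η := by
    intro θ cc u x hu hsx hx hcc0 hcc1 hW
    have h1 := hSTRIP p θ cc s u n o hp0 hNW.hi hu ⟨x, hsx⟩ (by
      rw [hsx]
      nlinarith) hn hcc0 hcc1 hW ho hh1 q hq0 hqL
    have h2 : s / (100 * u) = x / 5 := by
      rw [hsx, show 100 * u = 20 * u * 5 by ring]
      exact Nat.mul_div_mul_left _ _ (by positivity)
    rw [h2] at h1
    refine h1.trans ?_
    refine div_le_div_of_nonneg_left (mul_nonneg hE0 (pow_nonneg (by linarith) _)) hη0 ?_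
    linarith
  -- positive `θ`
  have main : ∀ θ : ℝ, 0 < θ → θ ≤ Real.pi →
      ‖CEx (fun _ => p) (boxE n) (fun F => ((q F * gg (8 * s) o F : ℝ) : ℂ) *
        ei (θ * (Sz n o F : ℝ)))‖ ≤
      (C1 + C2 + C3 + C4 + 1) * E / (1 + θ * (s : ℝ) ^ D) ^ 6 := by
    intro θ hθ hθpi
    set V := ‖CEx (fun _ => p) (boxE n) (fun F => ((q F * gg (8 * s) o F : ℝ) : ℂ) *
        ei (θ * (Sz n o F : ℝ)))‖ with hV
    have hsD : 0 < (s : ℝ) ^ D := by
      rw [hM]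
      positivity
    have ht : 0 ≤ θ * (s : ℝ) ^ D := by positivity
    have fin : ∀ C : ℝ, C ≤ C1 + C2 + C3 + C4 + 1 → V ≤ C * E / (1 + θ * (s : ℝ) ^ D) ^ 6 →
        V ≤ (C1 + C2 + C3 + C4 + 1) * E / (1 + θ * (s : ℝ) ^ D) ^ 6 := by
      intro C hC hVC
      refine hVC.trans ?_
      refine div_le_div_of_nonneg_right (mul_le_mul_of_nonneg_right hC hE0) (by positivity)
    by_cases hcase : 1 < θ * b
    · -- large `θ`
      have hθb : 1 / b ≤ θ := by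
        rw [div_le_iff₀ hb]
        exact hcase.le
      by_cases hA : 4 ≤ A
      · have hx10 : 10 ≤ 2 ^ A := by
          calc 10 ≤ 2 ^ 4 := by norm_num
            _ ≤ 2 ^ A := Nat.pow_le_pow_right (by norm_num) hA
        have h1 := hstrip θ c2 k0 (2 ^ A) (by omega) hs hx10 hc2.le hc21
          (fun z => hbig p θ hNW.lo hNW.hi hθb hθpi z)
        refine fin C2 (by linarith) (fin_case hη0 hE0 ht h1 hc21 ?_ (hd2 _))
        rw [hM]
        push_cast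
        have h2 := hpow A
        have h3 : (1 : ℝ) ≤ ((2 : ℝ) ^ A) ^ 2 := one_le_pow₀ (one_le_pow₀ (by norm_num))
        have h4 : θ * (L * ((2 : ℝ) ^ A) ^ D) ≤ Real.pi * (L * ((2 : ℝ) ^ A) ^ 2) :=
          mul_le_mul hθpi (mul_le_mul_of_nonneg_left h2 hL0.le) (by positivity) hpi.le
        nlinarith
      · push Not at hA
        refine fin C3 (by linarith) (triv_case hE0 ht (htriv θ) ?_)
        rw [hM]
        have h2 := hpow A
        have h3 : ((2 : ℝ) ^ A) ^ 2 ≤ 8 ^ 2 := by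
          refine pow_le_pow_left₀ (by positivity) ?_ _
          calc (2 : ℝ) ^ A ≤ 2 ^ 3 := pow_le_pow_right₀ (by norm_num) (by omega)
            _ = 8 := by norm_num
        calc θ * (L * ((2 : ℝ) ^ A) ^ D) ≤ Real.pi * (L * 8 ^ 2) :=
              mul_le_mul hθpi (mul_le_mul_of_nonneg_left (h2.trans h3) hL0.le) (by positivity)
                hpi.le
          _ = _ := by ring
    · -- small `θ`
      push Not at hcase
      have hex : ∃ i : ℕ, 1 < θ * b * ((2 : ℝ) ^ i) ^ D := by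
        obtain ⟨i, hi⟩ := pow_unbounded_of_one_lt (1 / (θ * b)) (by norm_num : (1 : ℝ) < 2)
        refine ⟨i, ?_⟩
        have h1 : (2 : ℝ) ^ i ≤ ((2 : ℝ) ^ i) ^ D := by
          have h2 : (1 : ℝ) ≤ (2 : ℝ) ^ i := one_le_pow₀ (by norm_num)
          calc (2 : ℝ) ^ i = ((2 : ℝ) ^ i) ^ (1 : ℝ) := (Real.rpow_one _).symm
            _ ≤ _ := Real.rpow_le_rpow_of_exponent_le h2 hD1
        rw [div_lt_iff₀ (by positivity)] at hi
        calc 1 < (2 : ℝ) ^ i * (θ * b) := hi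
          _ = θ * b * (2 : ℝ) ^ i := by ring
          _ ≤ _ := mul_le_mul_of_nonneg_left h1 (by positivity)
      classical
      have hspec := Nat.find_spec hex
      have hmin := fun {i : ℕ} (hi : i < Nat.find hex) => Nat.find_min hex hi
      set i1 := Nat.find hex with hi1
      have hi10 : i1 ≠ 0 := by
        intro h0
        rw [h0] at hspec
        simp only [pow_zero, Real.one_rpow, mul_one] at hspec
        linarith
      obtain ⟨i, hi⟩ : ∃ i, i1 = i + 1 := ⟨i1 - 1, by omega⟩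
      have hle : θ * b * ((2 : ℝ) ^ i) ^ D ≤ 1 := not_lt.1 (hmin (by omega))
      rw [hi] at hspec
      have h4D : ((2 : ℝ) ^ (i + 1)) ^ D ≤ 4 * ((2 : ℝ) ^ i) ^ D := by
        rw [pow_succ, Real.mul_rpow (by positivity) (by norm_num), mul_comm]
        refine mul_le_mul_of_nonneg_right ?_ (by positivity)
        calc (2 : ℝ) ^ D ≤ (2 : ℝ) ^ (2 : ℝ) := Real.rpow_le_rpow_of_exponent_le (by norm_num) hD2
          _ = 4 := by norm_num
      have hge : 1 ≤ 4 * (θ * (b * ((2 : ℝ) ^ i) ^ D)) := by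
        have h1 := mul_le_mul_of_nonneg_left h4D (by positivity : 0 ≤ θ * b)
        linarith
      have hθi : θ * ((2 : ℝ) ^ i) ^ D ≤ 1 / b := by
        rw [le_div_iff₀ hb]
        linarith
      by_cases hAi : i + 4 ≤ A
      · have hx16 : 2 ^ 4 ≤ 2 ^ (A - i) := Nat.pow_le_pow_right (by norm_num) (by omega)
        have hpe : 2 ^ A = 2 ^ i * 2 ^ (A - i) := by
          rw [← pow_add]
          congr 1
          omega
        have hm1 : 1 ≤ 2 ^ i := Nat.one_le_two_pow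
        have hsx : s = 20 * (k0 * 2 ^ i) * 2 ^ (A - i) := by
          rw [hs, hpe]
          ring
        have hNm : NW κ a p (200 * k0 * 2 ^ i) := by
          refine NW_anti hNW ?_
          rw [hsx]
          calc 200 * k0 * 2 ^ i = 20 * (k0 * 2 ^ i) * 10 := by ring
            _ ≤ 20 * (k0 * 2 ^ i) * 2 ^ (A - i) := Nat.mul_le_mul_left _ (by omega)
        have h1 := hstrip θ c1 (k0 * 2 ^ i) (2 ^ (A - i)) (Nat.mul_pos (by omega) (by omega)) hsx
          (by omega) hc1.le hc11 (fun z => hone p θ (2 ^ i) hm1 hNm (by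
            push_cast
            exact hge) (by
            push_cast
            linarith) z)
        refine fin C1 (by linarith) (fin_case hη0 hE0 ht h1 hc11 ?_ (hd1 _))
        rw [hM]
        push_cast
        have hpe' : ((2 : ℝ) ^ A) ^ D = ((2 : ℝ) ^ i) ^ D * ((2 : ℝ) ^ (A - i)) ^ D := by
          rw [← Real.mul_rpow (by positivity) (by positivity)]
          congr 1
          exact_mod_cast hpe
        rw [hpe']
        have h2 := hpow (A - i)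
        have h3 : (1 : ℝ) ≤ ((2 : ℝ) ^ (A - i)) ^ 2 := one_le_pow₀ (one_le_pow₀ (by norm_num))
        have h4 : θ * (L * (((2 : ℝ) ^ i) ^ D * ((2 : ℝ) ^ (A - i)) ^ D)) ≤
            L / b * ((2 : ℝ) ^ (A - i)) ^ 2 := by
          calc θ * (L * (((2 : ℝ) ^ i) ^ D * ((2 : ℝ) ^ (A - i)) ^ D))
              = L * ((θ * ((2 : ℝ) ^ i) ^ D) * ((2 : ℝ) ^ (A - i)) ^ D) := by ring
            _ ≤ L * (1 / b * ((2 : ℝ) ^ (A - i)) ^ 2) := by
                refine mul_le_mul_of_nonneg_left ?_ hL0.le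
                exact mul_le_mul hθi h2 (by positivity) (by positivity)
            _ = _ := by ring
        nlinarith
      · push Not at hAi
        refine fin C4 (by linarith) (triv_case hE0 ht (htriv θ) ?_)
        rw [hM]
        have h2 : ((2 : ℝ) ^ A) ^ D ≤ ((2 : ℝ) ^ i) ^ D * 16 ^ 2 := by
          have h3 : (2 : ℝ) ^ A ≤ (2 : ℝ) ^ i * 2 ^ 4 := by
            rw [← pow_add]
            exact pow_le_pow_right₀ (by norm_num) (by omega)
          calc ((2 : ℝ) ^ A) ^ D ≤ ((2 : ℝ) ^ i * 2 ^ 4) ^ D :=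
                Real.rpow_le_rpow (by positivity) h3 hD0.le
            _ = ((2 : ℝ) ^ i) ^ D * ((2 : ℝ) ^ 4) ^ D := Real.mul_rpow (by positivity) (by positivity)
            _ ≤ ((2 : ℝ) ^ i) ^ D * ((2 : ℝ) ^ 4) ^ 2 :=
                mul_le_mul_of_nonneg_left (hpow 4) (by positivity)
            _ = _ := by norm_num
        calc θ * (L * ((2 : ℝ) ^ A) ^ D) ≤ θ * (L * (((2 : ℝ) ^ i) ^ D * 16 ^ 2)) :=
              mul_le_mul_of_nonneg_left (mul_le_mul_of_nonneg_left h2 hL0.le) hθ.le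
          _ = L * 16 ^ 2 * (θ * ((2 : ℝ) ^ i) ^ D) := by ring
          _ ≤ L * 16 ^ 2 * (1 / b) := mul_le_mul_of_nonneg_left hθi (by positivity)
          _ = _ := by ring
  intro θ hθ
  rcases lt_trichotomy θ 0 with h | h | h
  · have h1 := main (-θ) (by linarith) (by rw [abs_of_neg h] at hθ; exact hθ)
    rw [abs_of_neg h]
    refine le_trans (le_of_eq ?_) h1
    rw [← Complex.norm_conj, ← CEx_conj]
    congr 2
    funext F
    rw [map_mul, Complex.conj_ofReal, ← ei_neg]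
    congr 2
    ring
  · subst h
    rw [abs_zero]
    refine (htriv 0).trans ?_
    rw [zero_mul, add_zero, one_pow, div_one]
    nlinarith
  · rw [abs_of_pos h] at hθ ⊢
    exact main θ h hθ

end Q277.FE
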