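import Pool.Agent.Q78.FE.Stm2

/-!
Project FE, part H-HUB: the hub of a cell.
-/

set_option autoImplicit false

namespace Q277.FE

open Finset H974 Pool.Agent.H160R2.CV Pool.Agent.H160R2.CV.Quad H362P Q78.FE

theorem exit_box {G : Set Edg} {z x v : Vtx} {R : ℕ} (hx : nv (x - z) ≤ R) (hr : Reach G x v)
    (hv : R ≤ nv (v - z)) : ∃ w : Vtx, R ≤ nv (w - z) ∧ Reach (G ∩ ↑(bo z R)) x w := by
  obtain ⟨w, -, k2, k3⟩ := first_exit (a := z.1 - R) (b := z.1 + R) (c := z.2 - R) (d := z.2 + R)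
    (by unfold nv at hx; simp only [Prod.fst_sub, Prod.snd_sub] at hx; unfold inR; omega) hr
    (by unfold nv at hv; simp only [Prod.fst_sub, Prod.snd_sub] at hv; omega)
  refine ⟨w, ?_, k3⟩
  unfold nv
  simp only [Prod.fst_sub, Prod.snd_sub]
  omega

theorem t_HUB : S_HUB := by
  intro z u F hu hLk
  obtain ⟨hC, w, v, hw, hv, hr⟩ := hLk
  obtain ⟨h, hh⟩ := CA_meet (show 30 * u < 90 * u by omega) hC
  refine ⟨h, hh, ?_⟩
  obtain ⟨w', h1, h2⟩ := exit_box (R := 9 * u) (show nv (w - z) ≤ 9 * u by omega) hr (by omega)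
  refine ⟨w, ⟨by omega, w', h1, h2.mono ?_⟩, hh w v (by omega) hv (hr.mono Set.inter_subset_left)⟩
  rintro e ⟨⟨e1, e2⟩, e3⟩
  unfold An
  rw [Finset.coe_sdiff] at e2 ⊢
  exact ⟨e1, e3, e2.2⟩

/-- Two radial points of a gadget with a circuit are connected. -/
theorem rad_conn {z : Vtx} {u : ℕ} (hu : 1 ≤ u) {F : Finset Edg} (hG : Gd z u F) {w w' : Vtx}
    (h : Rad z u F w) (h' : Rad z u F w') : Reach (↑F) w w' := by
  obtain ⟨c, hc⟩ := CA_meet (show 3 * u < 9 * u by omega) hG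
  obtain ⟨h1, v, h2, h3⟩ := h
  obtain ⟨h1', v', h2', h3'⟩ := h'
  exact (hc w v h1 h2 (h3.mono Set.inter_subset_left)).trans
    (hc w' v' h1' h2' (h3'.mono Set.inter_subset_left)).symm

end Q277.FE
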