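import Pool.Agent.Q78.FE.Stm2

/-!
Project FE, part H-LOCV: locality and monotonicity of the event of a cell.
-/

set_option autoImplicit false

namespace Q277.FE

open Finset H974 Pool.Agent.H160R2.CV Pool.Agent.H160R2.CV.Quad H362P Q78.FE

theorem inter_shrink {A B F F' : Finset Edg} (h : F ∩ A = F' ∩ A) (hB : B ⊆ A) :
    F ∩ B = F' ∩ B := by
  ext e
  have h1 : e ∈ F ∩ A ↔ e ∈ F' ∩ A := by rw [h]
  simp only [Finset.mem_inter] at h1 ⊢
  constructor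
  · rintro ⟨h2, h3⟩
    exact ⟨(h1.mp ⟨h2, hB h3⟩).1, h3⟩
  · rintro ⟨h2, h3⟩
    exact ⟨(h1.mpr ⟨h2, hB h3⟩).1, h3⟩

theorem LRc_congr {a b c d : ℤ} {F F' : Finset Edg} (h : F ∩ LRE a b c d = F' ∩ LRE a b c d) :
    LRc a b c d F ↔ LRc a b c d F' := by
  rw [LRc_local (Finset.Subset.refl _), h, ← LRc_local (Finset.Subset.refl _)]

theorem TBc_congr {a b c d : ℤ} {F F' : Finset Edg} (h : F ∩ TBE a b c d = F' ∩ TBE a b c d) :
    TBc a b c d F ↔ TBc a b c d F' := by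
  rw [TBc_local (Finset.Subset.refl _), h, ← TBc_local (Finset.Subset.refl _)]

theorem bo_le {z : Vtx} {m n : ℕ} (h : m ≤ n) : bo z m ⊆ bo z n := by
  unfold bo
  apply RE_subset <;> omega

theorem Lh_sub {z : Vtx} {u : ℕ} (hu : 1 ≤ u) :
    LRE (z.1 + 3 * u) (z.1 + 197 * u) z.2 (z.2 + 20 * u) ⊆ bo z (197 * u) \ Bl z u := by
  intro e he
  have h1 := LRE_subset_RE he
  rw [Finset.mem_sdiff]
  unfold Bl bo
  obtain ⟨x, y, _ | _⟩ := e
  · simp only [mem_RE_false] at h1 ⊢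
    push_cast
    omega
  · simp only [mem_RE_true] at h1 ⊢
    push_cast
    omega

theorem Lv_sub {z : Vtx} {u : ℕ} (hu : 1 ≤ u) :
    TBE z.1 (z.1 + 20 * u) (z.2 + 3 * u) (z.2 + 197 * u) ⊆ bo z (197 * u) \ Bl z u := by
  intro e he
  have h1 := TBE_subset_RE he
  rw [Finset.mem_sdiff]
  unfold Bl bo
  obtain ⟨x, y, _ | _⟩ := e
  · simp only [mem_RE_false] at h1 ⊢
    push_cast
    omega
  · simp only [mem_RE_true] at h1 ⊢
    push_cast
    omega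

theorem hz_congr (hLOC : S_LOC) {p : ℝ} {z : Vtx} {u m : ℕ} (hu : 1 ≤ u) {F F' : Finset Edg}
    (h : F ∩ (bo z (9 * u) \ Bl z u) = F' ∩ (bo z (9 * u) \ Bl z u)) :
    hz p z u m F = hz p z u m F' := by
  unfold hz
  apply Pr_congr
  intro G _
  have e : ((F \ Bl z u) ∪ G) ∩ bo z (9 * u) = ((F' \ Bl z u) ∪ G) ∩ bo z (9 * u) := by
    ext e
    have h1 : e ∈ F ∩ (bo z (9 * u) \ Bl z u) ↔ e ∈ F' ∩ (bo z (9 * u) \ Bl z u) := by rw [h]
    simp only [Finset.mem_inter, Finset.mem_union, Finset.mem_sdiff] at h1 ⊢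
    tauto
  have h2 := (hLOC z u hu ((F \ Bl z u) ∪ G) ((F' \ Bl z u) ∪ G)).2.2.1 e
  constructor
  · rintro ⟨v, hv, hb⟩
    exact ⟨v, hv, (h2 v).mp hb⟩
  · rintro ⟨v, hv, hb⟩
    exact ⟨v, hv, (h2 v).mpr hb⟩

theorem hz_mono (hLOC : S_LOC) {p : ℝ} (h0 : 0 ≤ p) (h1 : p ≤ 1) {z : Vtx} {u m : ℕ}
    (hu : 1 ≤ u) {F F' : Finset Edg} (h : F ⊆ F') : hz p z u m F ≤ hz p z u m F' := by
  unfold hz
  apply Pr_mono (okq h0 h1)
  rintro G _ ⟨v, hv, hb⟩
  refine ⟨v, hv, ((hLOC z u hu ((F \ Bl z u) ∪ G) ((F' \ Bl z u) ∪ G)).2.2.2 ?_).2.2.2 v hb⟩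
  exact Finset.union_subset_union (Finset.sdiff_subset_sdiff h (Finset.Subset.refl _))
    (Finset.Subset.refl _)

theorem t_LOCV (hLOC : S_LOC) : S_LOCV := by
  intro c p z u m h0 h1 hu F F'
  have main : ∀ F F' : Finset Edg,
      F ∩ (bo z (197 * u) \ Bl z u) = F' ∩ (bo z (197 * u) \ Bl z u) →
      (Vz c p z u m F ↔ Vz c p z u m F') := by
    intro F F' h
    have s1 : An z u ⊆ bo z (197 * u) \ Bl z u := by
      unfold An Bl
      exact Finset.sdiff_subset_sdiff (bo_le (by omega)) (Finset.Subset.refl _)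
    have s2 : bo z (90 * u) \ bo z (2 * u) ⊆ bo z (197 * u) \ Bl z u := by
      unfold Bl
      exact Finset.sdiff_subset_sdiff (bo_le (by omega)) (Finset.Subset.refl _)
    have s3 : bo z (9 * u) \ Bl z u ⊆ bo z (197 * u) \ Bl z u :=
      Finset.sdiff_subset_sdiff (bo_le (by omega)) (Finset.Subset.refl _)
    have k1 : Gd z u F ↔ Gd z u F' := ((hLOC z u hu F F').1 (inter_shrink h s1)).1
    have k2 : Lk z u F ↔ Lk z u F' := (hLOC z u hu F F').2.1 (inter_shrink h s2)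
    have k3 : hz p z u m F = hz p z u m F' := hz_congr hLOC hu (inter_shrink h s3)
    have k4 : Lh z u F ↔ Lh z u F' := LRc_congr (inter_shrink h (Lh_sub hu))
    have k5 : Lv z u F ↔ Lv z u F' := TBc_congr (inter_shrink h (Lv_sub hu))
    unfold Vz
    rw [k1, k2, k3, k4, k5]
  refine ⟨main F F', ?_, ?_, ?_⟩
  · rintro h ⟨k1, k2, k3, k4, k5⟩
    have hm := (hLOC z u hu F F').2.2.2 h
    exact ⟨hm.1 k1, hm.2.1 k2, k3.trans (hz_mono hLOC h0 h1 hu h), LRc.mono h k4, TBc.mono h k5⟩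
  · intro h
    apply main
    ext e
    have h1 : e ∈ F \ Bl z u ↔ e ∈ F' \ Bl z u := by rw [h]
    simp only [Finset.mem_inter, Finset.mem_sdiff] at h1 ⊢
    tauto
  · intro z' hz' h
    apply main
    have hd : Disjoint (bo z (197 * u)) (bo z' (2 * u)) := bo_disj (by omega)
    rw [Finset.disjoint_left] at hd
    ext e
    have h1 : e ∈ F \ Bl z' u ↔ e ∈ F' \ Bl z' u := by rw [h]
    have h2 : e ∈ bo z (197 * u) → e ∉ Bl z' u := fun h3 => hd h3
    simp only [Finset.mem_inter, Finset.mem_sdiff] at h1 ⊢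
    tauto

end Q277.FE
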