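import Pool.Agent.Q277.FE.HUB

/-!
Project FE, part H-SUM: the masses of disjoint attached gadgets add up.
-/

set_option autoImplicit false

namespace Q277.FE

open Finset H974 Pool.Agent.H160R2.CV Pool.Agent.H160R2.CV.Quad H362P Q78.FE

theorem t_SUM : S_SUM := by
  classical
  intro n u o J F hu hJ hd
  have key : ∀ z ∈ J, ∀ v, Hb z u F v → Reach (↑F) o v := by
    rintro z hz v ⟨w', hw', hr'⟩
    obtain ⟨⟨hG, w, hw, hro⟩, -⟩ := hJ z hz
    exact hro.trans ((rad_conn hu hG hw hw').trans (hr'.mono Set.inter_subset_left))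
  have e1 : ∀ z : Vtx, Yz z u F = (((bxz z (9 * u)).filter (fun v => Hb z u F v)).card : ℝ) := by
    intro z
    unfold Yz
    rw [Finset.card_filter]
    push_cast
    apply Finset.sum_congr rfl
    intro v _
    by_cases h : Hb z u F v
    · rw [ind_of h, if_pos h]
    · rw [ind_not_of h, if_neg h]
  rw [Finset.sum_congr rfl (fun z _ => e1 z)]
  have e2 : (J.biUnion (fun z => (bxz z (9 * u)).filter (fun v => Hb z u F v))).card =
      ∑ z ∈ J, ((bxz z (9 * u)).filter (fun v => Hb z u F v)).card := by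
    apply Finset.card_biUnion
    intro z hz z' hz' hne
    show Disjoint _ _
    rw [Finset.disjoint_left]
    intro v hv hv'
    have h1 := hd z hz z' hz' hne
    have h2 := (Finset.mem_filter.mp hv).1
    have h3 := (Finset.mem_filter.mp hv').1
    unfold bxz at h2 h3
    rw [Finset.mem_product, Finset.mem_Icc, Finset.mem_Icc] at h2 h3
    unfold nv at h1
    simp only [Prod.fst_sub, Prod.snd_sub] at h1
    push_cast at h2 h3
    omega
  rw [← Nat.cast_sum, ← e2, Nat.cast_le]
  unfold Sz
  apply Finset.card_le_card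
  intro v hv
  rw [Finset.mem_biUnion] at hv
  obtain ⟨z, hz, hv⟩ := hv
  rw [Finset.mem_filter] at hv ⊢
  exact ⟨(hJ z hz).2 hv.1, key z hz v hv.2⟩

end Q277.FE
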