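import Pool.Agent.Q78.FE.Stm

/-!
Project FE: a gadget touching the boundary of a region is attached.
-/

set_option autoImplicit false

namespace Q277.FE

open Finset H974 Pool.Agent.H160R2.CV Pool.Agent.H160R2.CV.Quad H362P Q78.FE

theorem mem_T0 {a b c d : ℤ} {T : Finset Vtx} (hT : T ⊆ T0 a b c d) {f : Vtx} (hf : f ∈ T) :
    a ≤ f.1 ∧ f.1 < b ∧ c ≤ f.2 ∧ f.2 ≤ d := by
  have h := hT hf
  unfold T0 at h
  rw [Finset.mem_product, Finset.mem_Ico, Finset.mem_Icc] at h
  exact ⟨h.1.1, h.1.2, h.2.1, h.2.2⟩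

/-- the four faces around a vertex -/
def F4 (T : Finset Vtx) (v : Vtx) : Prop :=
  (v.1, v.2) ∈ T ∧ (v.1 - 1, v.2) ∈ T ∧ (v.1 - 1, v.2 - 1) ∈ T ∧ (v.1, v.2 - 1) ∈ T

/-- the box of the gadget is in the region -/
theorem bo_inT {a b c d : ℤ} {z : Vtx} {u : ℕ} {T : Finset Vtx} (hT : T ⊆ T0 a b c d)
    (hD : Dbx z u T) (h1 : a + 10 * u ≤ z.1) (h2 : z.1 + 10 * u ≤ b) (hu : 1 ≤ u)
    (h3 : z.2 + 10 * u ≤ d) : bo z (9 * u) ⊆ inT a b c d T := by
  rintro ⟨x, y, _ | _⟩ he
  · simp only [bo, mem_RE_false] at he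
    push_cast at he
    have k1 : (x - 1, y) ∈ T := hD (x - 1, y) (by simp only; omega) (by simp only; omega)
      (by simp only; omega) (by simp only; omega)
    have k2 : (x, y) ∈ T := hD (x, y) (by simp only; omega) (by simp only; omega)
      (by simp only; omega) (by simp only; omega)
    have k3 := mem_T0 hT k2
    simp only at k3
    refine Finset.mem_filter.2 ⟨?_, ?_, ?_⟩
    · rw [mem_LRE_false]
      omega
    · rw [dsrc_false]
      exact k1
    · rw [dtgt_mk]
      exact k2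
  · simp only [bo, mem_RE_true] at he
    push_cast at he
    have k1 : (x, y - 1) ∈ T := hD (x, y - 1) (by simp only; omega) (by simp only; omega)
      (by simp only; omega) (by simp only; omega)
    have k2 : (x, y) ∈ T := hD (x, y) (by simp only; omega) (by simp only; omega)
      (by simp only; omega) (by simp only; omega)
    have k3 := mem_T0 hT k1
    simp only at k3
    refine Finset.mem_filter.2 ⟨?_, ?_, ?_⟩
    · rw [mem_LRE_true]
      omega
    · rw [dsrc_true]
      exact k1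
    · rw [dtgt_mk]
      exact k2

/-- one step of the path: the next vertex is surrounded by faces of `T`, or it is an end of an edge
of the boundary -/
theorem around {a b c d : ℤ} {T : Finset Vtx} (hT : T ⊆ T0 a b c d) {v : Vtx}
    (h1 : a < v.1) (h2 : v.1 < b) (h3 : v.2 < d)
    (hsome : (v.1, v.2) ∈ T ∨ (v.1 - 1, v.2) ∈ T ∨ (v.1 - 1, v.2 - 1) ∈ T ∨ (v.1, v.2 - 1) ∈ T) :
    F4 T v ∨ ∃ e ∈ bdT a b c d T, src e = v ∨ tgt e = v := by
  by_cases c1 : ((v.1, v.2) ∈ T ↔ (v.1 - 1, v.2) ∈ T)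
  · by_cases c2 : ((v.1 - 1, v.2) ∈ T ↔ (v.1 - 1, v.2 - 1) ∈ T)
    · by_cases c3 : ((v.1 - 1, v.2 - 1) ∈ T ↔ (v.1, v.2 - 1) ∈ T)
      · left
        unfold F4
        tauto
      · right
        refine ⟨(v.1, v.2 - 1, false), Finset.mem_filter.2 ⟨?_, ?_⟩, Or.inr ?_⟩
        · rw [mem_LRE_false]
          have k : c ≤ v.2 - 1 := by
            by_cases k1 : (v.1 - 1, v.2 - 1) ∈ T
            · exact (mem_T0 hT k1).2.2.1
            · by_cases k2 : (v.1, v.2 - 1) ∈ T
              · exact (mem_T0 hT k2).2.2.1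
              · tauto
          omega
        · rw [dsrc_false, dtgt_mk]
          exact c3
        · rw [tgt_false, sub_add_cancel]
    · right
      refine ⟨(v.1 - 1, v.2, true), Finset.mem_filter.2 ⟨?_, ?_⟩, Or.inr ?_⟩
      · rw [mem_LRE_true]
        have k : c ≤ v.2 := by
          by_cases k1 : (v.1 - 1, v.2) ∈ T
          · exact (mem_T0 hT k1).2.2.1
          · by_cases k2 : (v.1 - 1, v.2 - 1) ∈ T
            · have := (mem_T0 hT k2).2.2.1
              simp only at this
              omega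
            · tauto
        omega
      · rw [dsrc_true, dtgt_mk]
        tauto
      · rw [tgt_true, sub_add_cancel]
  · right
    refine ⟨(v.1, v.2, false), Finset.mem_filter.2 ⟨?_, ?_⟩, Or.inl rfl⟩
    · rw [mem_LRE_false]
      have k : c ≤ v.2 := by
        by_cases k1 : (v.1, v.2) ∈ T
        · exact (mem_T0 hT k1).2.2.1
        · by_cases k2 : (v.1 - 1, v.2) ∈ T
          · exact (mem_T0 hT k2).2.2.1
          · tauto
      omega
    · rw [dsrc_false, dtgt_mk]
      tauto

/-- the sides of an edge at a vertex surrounded by `T` -/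
theorem sides {T : Finset Vtx} {v : Vtx} (hF : F4 T v) {e : Edg} (he : src e = v ∨ tgt e = v) :
    dsrc e ∈ T ∧ dtgt e ∈ T := by
  obtain ⟨h1, h2, h3, h4⟩ := hF
  obtain ⟨x, y, _ | _⟩ := e
  · rw [src_mk, tgt_false] at he
    rw [dsrc_false, dtgt_mk]
    rcases he with rfl | rfl
    · exact ⟨h2, h1⟩
    · simp only [add_sub_cancel_right] at h3 h4
      exact ⟨h3, h4⟩
  · rw [src_mk, tgt_true] at he
    rw [dsrc_true, dtgt_mk]
    rcases he with rfl | rfl
    · exact ⟨h4, h1⟩
    · simp only [add_sub_cancel_right] at h2 h3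
      exact ⟨h3, h2⟩

/-- the sides of an edge are faces around both ends -/
theorem some_face {T : Finset Vtx} {v : Vtx} {e : Edg} (hs : dtgt e ∈ T) (hs' : dsrc e ∈ T)
    (he : src e = v ∨ tgt e = v) :
    (v.1, v.2) ∈ T ∨ (v.1 - 1, v.2) ∈ T ∨ (v.1 - 1, v.2 - 1) ∈ T ∨ (v.1, v.2 - 1) ∈ T := by
  obtain ⟨x, y, _ | _⟩ := e
  · rw [src_mk, tgt_false] at he
    rw [dtgt_mk] at hs
    rcases he with rfl | rfl
    · exact Or.inl hs
    · right; right; right
      simp only [add_sub_cancel_right]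
      exact hs
  · rw [src_mk, tgt_true] at he
    rw [dtgt_mk] at hs
    rcases he with rfl | rfl
    · exact Or.inl hs
    · right; left
      simp only [add_sub_cancel_right]
      exact hs

theorem reach_src {F : Set Edg} {w v : Vtx} {e : Edg} (he : e ∈ F) (h : Reach F w v)
    (hv : src e = v ∨ tgt e = v) : Reach F w (src e) := by
  rcases hv with rfl | rfl
  · exact h
  · exact h.trans (Adj.reach ⟨e, he, Or.inr ⟨rfl, rfl⟩⟩)

/-- E-TOUCH -/
theorem t_TOUCH (hLOC : S_LOC) (hCONN : S_CONN) : S_TOUCH := by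
  intro a b c d z u T F ω e0 hab hcd hu hReg hD ha hb hd he0 hn0 hbd hag hGd hLk
  have hT := hReg.sub
  have hin : bo z (9 * u) ⊆ inT a b c d T :=
    bo_inT hT hD (by omega) (by omega) hu (by omega)
  have hinb : ∀ e ∈ bo z (9 * u), (e ∈ ω ↔ e ∈ F) := fun e he => hag e (hin he)
  have hAn : ω ∩ An z u = F ∩ An z u := by
    ext e
    rw [Finset.mem_inter, Finset.mem_inter]
    constructor
    · rintro ⟨h1, h2⟩
      exact ⟨(hinb e (Finset.mem_sdiff.1 h2).1).1 h1, h2⟩
    · rintro ⟨h1, h2⟩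
      exact ⟨(hinb e (Finset.mem_sdiff.1 h2).1).2 h1, h2⟩
  obtain ⟨hG, hR⟩ := (hLOC z u hu ω F).1 hAn
  refine ⟨hin, hG.1 hGd, ?_⟩
  obtain ⟨y, y', hy, hy', -, hall⟩ := hCONN a b c d hab hcd T hReg
  -- the configuration in the box
  set B : Finset Edg := bdT a b c d T with hB
  set Λ : Finset Edg := (ω ∪ B) ∩ bo z (90 * u) with hΛ
  have hLk1 : Lk z u (ω ∪ B) := ((hLOC z u hu ω (ω ∪ B)).2.2.2 Finset.subset_union_left).2.1 hLk
  have hLk2 : Lk z u Λ := by
    refine ((hLOC z u hu (ω ∪ B) Λ).2.1 ?_).1 hLk1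
    ext e
    simp only [hΛ, Finset.mem_inter, Finset.mem_sdiff]
    tauto
  obtain ⟨hCA, -⟩ := hLk2
  obtain ⟨-, w, v, hw, hv, hwv⟩ := hLk
  obtain ⟨z1, hz1⟩ := CA_meet (by omega) hCA
  have hwv' : Reach (↑Λ) w v := by
    refine hwv.mono ?_
    rintro e ⟨h1, h2⟩
    rw [Finset.mem_coe, Finset.mem_sdiff] at h2
    rw [Finset.mem_coe, hΛ, Finset.mem_inter, Finset.mem_union]
    exact ⟨Or.inl (Finset.mem_coe.1 h1), h2.1⟩
  have h1 : Reach (↑Λ) w z1 := hz1 w v (by omega) hv hwv'
  have h2 : Reach (↑Λ) (src e0) z1 := by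
    have hr := (hall e0 he0).symm
    have hsrc := hn0
    unfold nv at hsrc
    simp only [Prod.fst_sub, Prod.snd_sub] at hsrc
    obtain ⟨w', k1, k2, k3⟩ := first_exit (a := z.1 - (90 * u : ℕ)) (b := z.1 + (90 * u : ℕ))
      (c := z.2 - (90 * u : ℕ)) (d := z.2 + (90 * u : ℕ)) (by unfold inR; push_cast; omega) hr
      (by left; simp only; push_cast; omega)
    refine hz1 (src e0) w' hn0 ?_ (k3.mono ?_)
    · unfold inR at k1
      unfold nv
      simp only [Prod.fst_sub, Prod.snd_sub]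
      push_cast at k1 k2
      omega
    · rintro e ⟨h3, h4⟩
      rw [Finset.mem_coe, hΛ, Finset.mem_inter, Finset.mem_union]
      exact ⟨Or.inr (Finset.mem_coe.1 h3), h4⟩
  have hpath : Reach (↑Λ) w (src e0) := h1.trans h2.symm
  -- follow the path
  have key : ∀ x, Reach (↑Λ) w x → (∃ e1 ∈ B, Reach (↑F) w (src e1)) ∨
      (Reach (↑F) w x ∧ F4 T x) := by
    intro x hx
    induction hx with
    | refl =>
      right
      refine ⟨Reach.refl _ _, ?_⟩
      unfold nv at hw
      simp only [Prod.fst_sub, Prod.snd_sub] at hw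
      refine ⟨?_, ?_, ?_, ?_⟩ <;> apply hD <;> simp only <;> omega
    | @tail x x' _ hs ih =>
      rcases ih with ih | ⟨ih1, ih2⟩
      · exact Or.inl ih
      · obtain ⟨e, heΛ, hcase⟩ := hs
        have hex : src e = x ∨ tgt e = x := by tauto
        have hex' : src e = x' ∨ tgt e = x' := by tauto
        obtain ⟨s1, s2⟩ := sides ih2 hex
        rw [Finset.mem_coe, hΛ, Finset.mem_inter, Finset.mem_union] at heΛ
        have hends := bo_ends heΛ.2
        have heL : e ∈ LRE a b c d := by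
          have m1 := mem_T0 hT s1
          have m2 := mem_T0 hT s2
          have hends' := hends
          unfold nv at hends'
          obtain ⟨x0, y0, _ | _⟩ := e
          · simp only [src_mk, tgt_false, dsrc_false, dtgt_mk, Prod.fst_sub, Prod.snd_sub] at m1 m2 hends'
            rw [mem_LRE_false]
            omega
          · simp only [src_mk, tgt_true, dsrc_true, dtgt_mk, Prod.fst_sub, Prod.snd_sub] at m1 m2 hends'
            rw [mem_LRE_true]
            omega
        have heI : e ∈ inT a b c d T := Finset.mem_filter.2 ⟨heL, s1, s2⟩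
        have heB : e ∉ B := by
          intro h
          exact (Finset.mem_filter.1 h).2 ⟨fun _ => s2, fun _ => s1⟩
        have heF : e ∈ F := (hag e heI).1 (heΛ.1.resolve_right heB)
        have hr : Reach (↑F) w x' :=
          ih1.trans (Adj.reach ⟨e, Finset.mem_coe.2 heF, hcase⟩)
        have hx' : nv (x' - z) ≤ 90 * u := by
          rcases hex' with h | h
          · rw [← h]; exact hends.1
          · rw [← h]; exact hends.2
        unfold nv at hx'
        simp only [Prod.fst_sub, Prod.snd_sub] at hx'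
        rcases around (v := x') hT (by omega) (by omega) (by omega) (some_face s2 s1 hex')
          with h | ⟨e1, he1, he1'⟩
        · exact Or.inr ⟨hr, h⟩
        · left
          exact ⟨e1, he1, reach_src (Finset.mem_coe.2 (hbd he1)) hr he1'⟩
  have hfin : ∃ e1 ∈ B, Reach (↑F) w (src e1) := by
    rcases key _ hpath with h | ⟨h, -⟩
    · exact h
    · exact ⟨e0, he0, h⟩
  obtain ⟨e1, he1, hr1⟩ := hfin
  have hBF : (↑B : Set Edg) ⊆ ↑F := by exact_mod_cast hbd
  refine ⟨w, ?_, fun e he => hr1.trans (((hall e1 he1).symm.trans (hall e he)).mono hBF)⟩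
  rw [← hR w]
  refine ⟨by omega, ?_⟩
  have hw' := hw
  unfold nv at hw' hv
  simp only [Prod.fst_sub, Prod.snd_sub] at hw' hv
  obtain ⟨w', k1, k2, k3⟩ := first_exit (a := z.1 - (9 * u : ℕ)) (b := z.1 + (9 * u : ℕ))
    (c := z.2 - (9 * u : ℕ)) (d := z.2 + (9 * u : ℕ)) (by unfold inR; push_cast; omega) hwv
    (by push_cast; omega)
  refine ⟨w', ?_, k3.mono ?_⟩
  · unfold inR at k1
    unfold nv
    simp only [Prod.fst_sub, Prod.snd_sub]
    push_cast at k1 k2
    omega
  · rintro e ⟨⟨h3, h4⟩, h5⟩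
    refine ⟨h3, ?_⟩
    rw [Finset.mem_coe, Finset.mem_sdiff] at h4
    unfold An
    rw [Finset.mem_coe, Finset.mem_sdiff]
    exact ⟨h5, h4.2⟩

end Q277.FE
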