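import Pool.Agent.Q78.FE.Stm2
import Pool.Agent.Q291.CS.Blocks

/-!
Project FE, part H-TY: the tail of the mass of a gadget.
-/

set_option autoImplicit false

namespace Q277.FE.TY

open Finset H974 Pool.Agent.H160R2.CV Pool.Agent.H160R2.CV.Quad H362P Q78.FE
open Q291.CS Pool.Agent.Y244.PC

theorem Yz_card (z : Vtx) (u : ℕ) (F : Finset Edg) [DecidablePred (fun v => Hb z u F v)] :
    Yz z u F = (((bxz z (9 * u)).filter (fun v => Hb z u F v)).card : ℝ) := by
  unfold Yz
  rw [Finset.card_filter]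
  push_cast
  apply Finset.sum_congr rfl
  intro v _
  by_cases h : Hb z u F v
  · rw [ind_of h, if_pos h]
  · rw [ind_not_of h, if_neg h]

theorem VV_card (M : ℕ) (B : Finset Vtx) (F : Finset Edg) [DecidablePred (fun v => LA v M F)] :
    VV M B F = ((B.filter (fun v => LA v M F)).card : ℝ) := by
  unfold VV
  rw [Finset.card_filter]
  push_cast
  apply Finset.sum_congr rfl
  intro v _
  by_cases h : LA v M F
  · rw [ind_of h, if_pos h]
  · rw [ind_not_of h, if_neg h]

theorem Hb_far {z : Vtx} {u : ℕ} {F : Finset Edg} {v : Vtx} (h : Hb z u F v) :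
    Far v (3 * u) F := by
  obtain ⟨w, ⟨hw, v', hv', hr⟩, hr2⟩ := h
  have k1 : Reach (↑F) v w := (hr2.mono Set.inter_subset_left).symm
  have k2 : Reach (↑F) v v' := k1.trans (hr.mono Set.inter_subset_left)
  by_cases h1 : 3 * u ≤ nv (w - v)
  · exact ⟨w, h1, k1⟩
  · refine ⟨v', ?_, k2⟩
    unfold nv at h1 hw hv' ⊢
    simp only [Prod.fst_sub, Prod.snd_sub] at h1 hw hv' ⊢
    omega

/-- the centres of the four boxes -/
def zc (z : Vtx) (h : ℕ) (i : Bool × Bool) : Vtx :=
  (z.1 + (if i.1 then (h : ℤ) else -h), z.2 + (if i.2 then (h : ℤ) else -h))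

theorem cover {z : Vtx} {u h m1 : ℕ} (h9 : 9 * u ≤ 2 * h) (hm : 8 * m1 ≤ 3 * u)
    (F : Finset Edg) : Yz z u F ≤ ∑ i : Bool × Bool, VV (8 * m1) (bx h) (sh (zc z h i) F) := by
  classical
  rw [Yz_card, Finset.sum_congr rfl (fun i _ => VV_card (8 * m1) (bx h) (sh (zc z h i) F))]
  have hsub : (bxz z (9 * u)).filter (fun v => Hb z u F v) ⊆
      (Finset.univ : Finset (Bool × Bool)).biUnion (fun i =>
        ((bx h).filter (fun v => LA v (8 * m1) (sh (zc z h i) F))).map
          (addRightEmbedding (zc z h i))) := by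
    intro v hv
    rw [Finset.mem_filter] at hv
    obtain ⟨hv1, hv2⟩ := hv
    have hf := Hb_far hv2
    unfold bxz at hv1
    rw [Finset.mem_product, Finset.mem_Icc, Finset.mem_Icc] at hv1
    push_cast at hv1
    have h9' : 9 * (u : ℤ) ≤ 2 * h := by exact_mod_cast h9
    rw [Finset.mem_biUnion]
    have key : ∀ i : Bool × Bool, v - zc z h i ∈ bx h →
        ∃ i ∈ (Finset.univ : Finset (Bool × Bool)),
          v ∈ ((bx h).filter (fun v => LA v (8 * m1) (sh (zc z h i) F))).map
            (addRightEmbedding (zc z h i)) := by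
      intro i hi
      refine ⟨i, Finset.mem_univ _, ?_⟩
      rw [Finset.mem_map]
      refine ⟨v - zc z h i, ?_, ?_⟩
      · rw [Finset.mem_filter]
        refine ⟨hi, LA_of_far le_rfl ?_⟩
        rw [Far_sh, sub_add_cancel]
        exact hf.mono_r hm
      · show v - zc z h i + zc z h i = v
        exact sub_add_cancel _ _
    have hbx : ∀ w : Vtx, (-(h : ℤ) ≤ w.1 ∧ w.1 ≤ h) ∧ (-(h : ℤ) ≤ w.2 ∧ w.2 ≤ h) →
        w ∈ bx h := by
      intro w hw
      unfold bx
      rw [Finset.mem_product, Finset.mem_Icc, Finset.mem_Icc]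
      exact hw
    rcases le_total z.1 v.1 with a1 | a1 <;> rcases le_total z.2 v.2 with a2 | a2
    · apply key (true, true)
      apply hbx
      simp only [zc, if_true, Prod.fst_sub, Prod.snd_sub]
      omega
    · apply key (true, false)
      apply hbx
      simp only [zc, if_true, Prod.fst_sub, Prod.snd_sub, Bool.false_eq_true, if_false]
      omega
    · apply key (false, true)
      apply hbx
      simp only [zc, if_true, Prod.fst_sub, Prod.snd_sub, Bool.false_eq_true, if_false]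
      omega
    · apply key (false, false)
      apply hbx
      simp only [zc, Prod.fst_sub, Prod.snd_sub, Bool.false_eq_true, if_false]
      omega
  have h1 := (Finset.card_le_card hsub).trans Finset.card_biUnion_le
  simp only [Finset.card_map] at h1
  exact_mod_cast h1

theorem t_TY : S_TY := by
  classical
  obtain ⟨A, c, -, hc, hE⟩ := expo
  refine ⟨c / 4, 8, by positivity, by norm_num, ?_⟩
  intro p u h0 h1 hu z S x hx
  obtain ⟨m1, hm1⟩ : ∃ m1 : ℕ, m1 = 3 * u / 8 := ⟨_, rfl⟩
  obtain ⟨h, hh⟩ : ∃ h : ℕ, h = (9 * u + 1) / 2 := ⟨_, rfl⟩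
  have b1 : 1 ≤ m1 := by omega
  have b2 : 8 * m1 ≤ 3 * u := by omega
  have b3 : 9 * u ≤ 2 * h := by omega
  have b4 : h ≤ 24 * m1 := by omega
  have b5 : m1 ≤ u := by omega
  have m0 : (0 : ℝ) < m1 := by exact_mod_cast b1
  have ok := okq h0 (show p ≤ 1 by linarith)
  obtain ⟨y, hy⟩ : ∃ y : ℝ, y = (m1 : ℝ) ^ (91 / 48 : ℝ) := ⟨_, rfl⟩
  obtain ⟨U, hU⟩ : ∃ U : ℝ, U = (u : ℝ) ^ (91 / 48 : ℝ) := ⟨_, rfl⟩
  have hy0 : 0 < y := by rw [hy]; positivity
  have hyU : y ≤ U := by
    rw [hy, hU]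
    apply Real.rpow_le_rpow m0.le _ (by norm_num)
    exact_mod_cast b5
  obtain ⟨s, hs⟩ : ∃ s : ℝ, s = c / y := ⟨_, rfl⟩
  have hs0 : 0 ≤ s := by rw [hs]; positivity
  have hsy : s * y ≤ c := by rw [hs, div_mul_cancel₀ _ hy0.ne']
  have hsU : c ≤ s * U := by
    calc c = s * y := by rw [hs, div_mul_cancel₀ _ hy0.ne']
      _ ≤ s * U := mul_le_mul_of_nonneg_left hyU hs0
  rw [← hU]
  obtain ⟨V, hV⟩ : ∃ V : Bool × Bool → Finset Edg → ℝ,
      V = fun i F => VV (8 * m1) (bx h) (sh (zc z h i) F) := ⟨_, rfl⟩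
  have hV2 : ∀ i, Ex (fun _ => p) S (fun F => Real.exp (s * V i F)) ≤ 2 := by
    intro i
    have k1 : Ex (fun _ => p) S (fun F => Real.exp (s * V i F)) ≤
        Ex P S (fun F => Real.exp (s * V i F)) := by
      apply Ex_le_half h0 h1
      intro F G hFG
      apply Real.exp_le_exp.mpr
      apply mul_le_mul_of_nonneg_left _ hs0
      rw [hV]
      exact VV_mono _ _ (sh_mono hFG)
    refine k1.trans ?_
    have k2 : Ex P S (fun F => Real.exp (s * V i F)) =
        Ex P (sh (zc z h i) S) (fun F => Real.exp (s * VV (8 * m1) (bx h) F)) := by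
      rw [hV]
      exact Ex_sh (1 / 2) (zc z h i) S (fun F => Real.exp (s * VV (8 * m1) (bx h) F))
    rw [k2]
    refine (hE m1 b1 (sh (zc z h i) S) (bx h) ?_ s hs0 (by rw [← hy]; exact hsy)).2
    intro v hv
    exact (VolAux.mem_bx.mp hv).trans b4
  obtain ⟨e0, he0⟩ : ∃ e0 : ℝ, e0 = Real.exp (-(s * (x * U) / 4)) := ⟨_, rfl⟩
  have he00 : 0 ≤ e0 := by rw [he0]; exact (Real.exp_pos _).le
  have hpt : ∀ F, ind (x * U < Yz z u F) ≤
      ∑ i : Bool × Bool, e0 * Real.exp (s * V i F) := by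
    intro F
    by_cases hF : x * U < Yz z u F
    · rw [ind_of hF]
      have hcov : Yz z u F ≤ ∑ i : Bool × Bool, V i F := by
        rw [hV]
        exact cover b3 b2 F
      obtain ⟨i, hi⟩ : ∃ i : Bool × Bool, x * U / 4 < V i F := by
        by_contra hno
        push Not at hno
        have k1 : ∑ i : Bool × Bool, V i F ≤ ∑ _i : Bool × Bool, x * U / 4 :=
          Finset.sum_le_sum fun i _ => hno i
        rw [Finset.sum_const, Finset.card_univ, nsmul_eq_mul] at k1
        have k2 : ((Fintype.card (Bool × Bool) : ℕ) : ℝ) = 4 := by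
          simp [Fintype.card_prod]
        rw [k2] at k1
        linarith
      have k3 : 1 ≤ e0 * Real.exp (s * V i F) := by
        rw [he0, ← Real.exp_add]
        apply Real.one_le_exp
        nlinarith
      refine k3.trans ?_
      exact Finset.single_le_sum (f := fun i : Bool × Bool => e0 * Real.exp (s * V i F))
        (fun j _ => mul_nonneg he00 (Real.exp_pos _).le) (Finset.mem_univ i)
    · rw [ind_not_of hF]
      exact Finset.sum_nonneg fun j _ => mul_nonneg he00 (Real.exp_pos _).le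
  have k4 : Pr (fun _ => p) S (fun F => x * U < Yz z u F) ≤
      ∑ i : Bool × Bool, e0 * Ex (fun _ => p) S (fun F => Real.exp (s * V i F)) := by
    unfold Pr
    refine (Ex_mono ok (fun F _ => hpt F)).trans (le_of_eq ?_)
    rw [Ex_sum]
    apply Finset.sum_congr rfl
    intro i _
    rw [Ex_mul_left]
  have k5 : ∑ i : Bool × Bool, e0 * Ex (fun _ => p) S (fun F => Real.exp (s * V i F)) ≤
      8 * e0 := by
    have k6 : ∑ i : Bool × Bool, e0 * Ex (fun _ => p) S (fun F => Real.exp (s * V i F)) ≤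
        ∑ _i : Bool × Bool, e0 * 2 :=
      Finset.sum_le_sum fun i _ => mul_le_mul_of_nonneg_left (hV2 i) he00
    rw [Finset.sum_const, Finset.card_univ, nsmul_eq_mul] at k6
    have k2 : ((Fintype.card (Bool × Bool) : ℕ) : ℝ) = 4 := by
      simp [Fintype.card_prod]
    rw [k2] at k6
    linarith
  refine (k4.trans k5).trans ?_
  apply mul_le_mul_of_nonneg_left _ (by norm_num)
  rw [he0]
  apply Real.exp_le_exp.mpr
  have : c * x ≤ s * U * x := mul_le_mul_of_nonneg_right hsU hx
  linarith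

end Q277.FE.TY
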