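import Pool.Agent.Q78.FE.Stm
import Pool.Agent.Q291.CS.Lower

/-!
Project FE, part C-YIN: a linked gadget has a large mass with positive probability.
-/

set_option autoImplicit false

namespace Q277.FE.YIN

open Finset H974 Pool.Agent.H160R2.CV Pool.Agent.H160R2.CV.Quad H362P Q78.FE
open Q291.CS Pool.Agent.Y244.PC

theorem ex_out {G : Set Edg} {z x v : Vtx} {R : ℕ} (hx : nv (x - z) ≤ R) (hr : Reach G x v)
    (hv : R ≤ nv (v - z)) : ∃ w : Vtx, R ≤ nv (w - z) ∧ Reach (G ∩ ↑(bo z R)) x w := by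
  obtain ⟨w, -, k2, k3⟩ := first_exit (a := z.1 - R) (b := z.1 + R) (c := z.2 - R) (d := z.2 + R)
    (by unfold nv at hx; simp only [Prod.fst_sub, Prod.snd_sub] at hx; unfold inR; omega) hr
    (by unfold nv at hv; simp only [Prod.fst_sub, Prod.snd_sub] at hv; omega)
  refine ⟨w, ?_, k3⟩
  unfold nv
  simp only [Prod.fst_sub, Prod.snd_sub]
  omega

theorem ex_in {G : Set Edg} {z x v : Vtx} {r : ℕ} (hx : nv (x - z) ≤ r) (hr : Reach G x v) :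
    ∃ w : Vtx, nv (w - z) ≤ r ∧ Reach (G \ ↑(bo z r)) w v := by
  obtain ⟨u, hu, h⟩ := last_exit (a := z.1 - r) (b := z.1 + r) (c := z.2 - r) (d := z.2 + r)
    (by unfold nv at hx; simp only [Prod.fst_sub, Prod.snd_sub] at hx; unfold inR; omega) hr
  refine ⟨u, ?_, h⟩
  unfold inR at hu
  unfold nv
  simp only [Prod.fst_sub, Prod.snd_sub]
  omega

theorem circ_loc {R1 R2 : ℤ} (h0 : 0 ≤ R1) (h : R1 ≤ R2) {F : Finset Edg} (hF : Circ R1 R2 F) :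
    Circ R1 R2 (F ∩ RE (-R2) R2 (-R2) R2) := by
  have s1 : LRE (-R2) R2 R1 R2 ⊆ RE (-R2) R2 (-R2) R2 :=
    LRE_subset_RE.trans (RE_subset le_rfl le_rfl (by omega) le_rfl)
  have s2 : LRE (-R2) R2 (-R2) (-R1) ⊆ RE (-R2) R2 (-R2) R2 :=
    LRE_subset_RE.trans (RE_subset le_rfl le_rfl le_rfl (by omega))
  have s3 : TBE R1 R2 (-R2) R2 ⊆ RE (-R2) R2 (-R2) R2 :=
    TBE_subset_RE.trans (RE_subset (by omega) le_rfl le_rfl le_rfl)
  have s4 : TBE (-R2) (-R1) (-R2) R2 ⊆ RE (-R2) R2 (-R2) R2 :=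
    TBE_subset_RE.trans (RE_subset le_rfl (by omega) le_rfl le_rfl)
  exact ⟨⟨(LRc_local s1).mp hF.1.1, (LRc_local s2).mp hF.1.2⟩,
    ⟨(TBc_local s3).mp hF.2.1, (TBc_local s4).mp hF.2.2⟩⟩

theorem CA_loc {z : Vtx} {R1 R2 : ℕ} (h : R1 ≤ R2) {F : Finset Edg} (hF : CA z R1 R2 F) :
    CA z R1 R2 (F ∩ bo z R2) := by
  have e : (trl (-z.1) (-z.2)).mp (F ∩ bo z R2) =
      (trl (-z.1) (-z.2)).mp F ∩ RE (-(R2 : ℤ)) R2 (-R2) R2 := by
    rw [LSym.mp_inter, trl_bo z R2]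
    rfl
  unfold CA
  rw [e]
  exact circ_loc (by positivity) (by exact_mod_cast h) hF

/-- The deterministic part. -/
theorem yin_det {z : Vtx} {k0 m : ℕ} (hk : 3 ≤ k0) (hm : 1 ≤ m) {F : Finset Edg} {y : ℝ}
    (h1 : CA z (3 * (k0 * m)) (9 * (k0 * m)) F)
    (h2 : CA z (30 * (k0 * m)) (90 * (k0 * m)) F) (h3 : CA z m (3 * m) F)
    (h4 : LRc z.1 (z.1 + ((90 * (k0 * m) : ℕ) : ℤ)) z.2 (z.2 + m) F) (h5 : CtP z y m F) :
    Gd z (k0 * m) F ∧ Lk z (k0 * m) F ∧ y ≤ Yi z (k0 * m) m F := by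
  classical
  obtain ⟨u, hu⟩ : ∃ u : ℕ, u = k0 * m := ⟨_, rfl⟩
  have h3m : 3 * m ≤ u := by rw [hu]; exact Nat.mul_le_mul_right _ hk
  rw [← hu] at h1 h2 h4 ⊢
  obtain ⟨y1, y2, ⟨a1, a2⟩, ⟨a3, a4⟩, hr⟩ := h4
  obtain ⟨w1, hw1⟩ : ∃ w1 : Vtx, w1 = (z.1, y1) := ⟨_, rfl⟩
  obtain ⟨v1, hv1⟩ : ∃ v1 : Vtx, v1 = (z.1 + ((90 * u : ℕ) : ℤ), y2) := ⟨_, rfl⟩
  rw [← hw1, ← hv1] at hr
  have hr' : Reach (↑F : Set Edg) w1 v1 := hr.mono Set.inter_subset_left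
  have n1 : nv (w1 - z) ≤ m := by
    rw [hw1]
    unfold nv
    simp only [Prod.fst_sub, Prod.snd_sub]
    omega
  have n2 : 90 * u ≤ nv (v1 - z) := by
    rw [hv1]
    unfold nv
    simp only [Prod.fst_sub, Prod.snd_sub]
    omega
  -- the link
  obtain ⟨w2, b1, b2⟩ := ex_out (z := z) (R := 90 * u) (by omega) hr' n2
  obtain ⟨x2, b3, b4⟩ := ex_in (z := z) (r := 2 * u) (by omega) b2
  have hLk : Lk z u F := by
    refine ⟨h2, x2, w2, b3, b1, b4.mono ?_⟩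
    rintro e ⟨⟨e1, e2⟩, e3⟩
    rw [Finset.coe_sdiff]
    exact ⟨e1, e2, e3⟩
  -- the radial point
  obtain ⟨w3, c1, c2⟩ := ex_out (z := z) (R := 9 * u) (by omega) hr' (by omega)
  obtain ⟨x3, c3, c4⟩ := ex_in (z := z) (r := 2 * u) (by omega) c2
  have hRad : Rad z u F x3 := by
    refine ⟨by omega, w3, c1, c4.mono ?_⟩
    rintro e ⟨⟨e1, e2⟩, e3⟩
    unfold An
    rw [Finset.coe_sdiff]
    exact ⟨e1, e2, e3⟩
  have hx3 : Reach (↑F ∩ ↑(bo z (9 * u))) x3 w1 :=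
    (c4.mono Set.sdiff_subset).trans c2.symm
  -- the vertices
  have hsub : (↑(F ∩ bo z (3 * m)) : Set Edg) ⊆ ↑F ∩ ↑(bo z (9 * u)) := by
    rw [Finset.coe_inter]
    apply Set.inter_subset_inter_right
    have : bo z (3 * m) ⊆ bo z (9 * u) := by
      unfold bo
      apply RE_subset <;> push_cast <;> omega
    exact_mod_cast this
  obtain ⟨q, hq⟩ := CA_meet (show m < 3 * m by omega) (CA_loc (show m ≤ 3 * m by omega) h3)
  have hq1 : Reach (↑(F ∩ bo z (3 * m))) w1 q := by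
    obtain ⟨w4, d1, d2⟩ := ex_out (z := z) (R := 3 * m) (by omega) hr' (by omega)
    rw [← Finset.coe_inter] at d2
    exact hq w1 w4 n1 d1 d2
  have hHb : ∀ x : Vtx, nv (x - z) ≤ m → Far x (4 * m) F → Hb z u F x := by
    rintro x hx ⟨x', e1, e2⟩
    have e3 : 3 * m ≤ nv (x' - z) := by
      have := nv_tri x' z x
      have e4 : nv (z - x) = nv (x - z) := VolAux.nv_comm z x
      omega
    obtain ⟨w5, d1, d2⟩ := ex_out (z := z) (R := 3 * m) (by omega) e2 e3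
    rw [← Finset.coe_inter] at d2
    have hq2 := hq x w5 hx d1 d2
    refine ⟨x3, hRad, hx3.trans ?_⟩
    exact (hq1.trans hq2.symm).mono hsub
  refine ⟨h1, hLk, ?_⟩
  obtain ⟨T, t1, t2⟩ := CtP_set h5
  refine t1.trans ?_
  unfold Yi
  have hT : T ⊆ bxz z m := by
    intro x hx
    have := (t2 x hx).1
    unfold nv at this
    simp only [Prod.fst_sub, Prod.snd_sub] at this
    unfold bxz
    rw [Finset.mem_product, Finset.mem_Icc, Finset.mem_Icc]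
    omega
  calc (T.card : ℝ) = ∑ x ∈ T, ind (Hb z u F x) := by
        rw [Finset.sum_congr rfl (fun x hx => ind_of (hHb x (t2 x hx).1 (t2 x hx).2))]
        rw [Finset.sum_const, nsmul_eq_mul, mul_one]
    _ ≤ ∑ x ∈ bxz z m, ind (Hb z u F x) :=
        Finset.sum_le_sum_of_subset_of_nonneg hT (fun x _ _ => ind_nonneg _)

theorem pr_CAw {p κ : ℝ} {N : ℕ} (hW : H12S.Win p κ N) {z : Vtx} {R1 R2 h : ℕ} (h1 : 1 ≤ h)
    (hN : h ≤ N) (hR : R1 + h ≤ R2) (hR2 : 2 * R2 ≤ 16 * h) {S : Finset Edg}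
    (hS : bo z R2 ⊆ S) : κ ^ 4 ≤ Pr (fun _ => p) S (CA z R1 R2) := by
  have q0 : 0 ≤ p := by linarith [hW.lo]
  have q1 : p ≤ 1 := by linarith [hW.hi]
  have h0 : Pr (fun _ => p) S (CA z R1 R2) =
      Pr (fun _ => p) ((trl (-z.1) (-z.2)).mp S) (Circ R1 R2) :=
    (LSym.pr (trl (-z.1) (-z.2)) p S _).symm
  rw [h0]
  have hsub : RE (-(R2 : ℤ)) R2 (-R2) R2 ⊆ (trl (-z.1) (-z.2)).mp S := by
    have : boxE R2 ⊆ (trl (-z.1) (-z.2)).mp S := by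
      rw [← trl_bo z R2]
      exact LSym.mp_mono _ hS
    exact this
  refine le_trans ?_ (pr_Circ q0 q1 (R1 := R1) (R2 := R2) (by positivity) (by omega) hsub)
  refine pow_le_pow_left₀ hW.kpos.le ?_ 4
  exact (hW.pri h h1 hN).trans (hh_mono q0 q1 (by omega) (by omega) (by omega))

theorem t_YIN (_hLOC : S_LOC) : S_YIN := by
  intro k0 hk κ a hκ ha
  obtain ⟨c0, hc0, -, hct⟩ := count_p ha
  refine ⟨a / 2, κ ^ (12 * k0 + 13) * c0, by positivity, by positivity, ?_⟩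
  intro p m hm hNW z S hS
  have hW := hNW.win
  have q0 : 0 ≤ p := by linarith [hNW.lo]
  have q1 : p ≤ 1 := by linarith [hNW.hi]
  have ok := okq q0 q1
  obtain ⟨u, hu⟩ : ∃ u : ℕ, u = k0 * m := ⟨_, rfl⟩
  have h3m : 3 * m ≤ u := by rw [hu]; exact Nat.mul_le_mul_right _ hk
  have hN : 200 * k0 * m = 200 * u := by rw [hu]; ring
  rw [← hu] at hS ⊢
  rw [hN] at hW
  have bm : ∀ r : ℕ, r ≤ 90 * u → bo z r ⊆ S := by
    intro r hr
    refine Finset.Subset.trans ?_ hS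
    unfold bo
    apply RE_subset <;> push_cast <;> omega
  have g1 : κ ^ 4 ≤ Pr (fun _ => p) S (CA z (3 * u) (9 * u)) :=
    pr_CAw hW (h := 2 * u) (by omega) (by omega) (by omega) (by omega) (bm _ (by omega))
  have g2 : κ ^ 4 ≤ Pr (fun _ => p) S (CA z (30 * u) (90 * u)) :=
    pr_CAw hW (h := 60 * u) (by omega) (by omega) (by omega) (by omega) (bm _ (by omega))
  have g3 : κ ^ 4 ≤ Pr (fun _ => p) S (CA z m (3 * m)) :=
    pr_CAw hW (h := 2 * m) (by omega) (by omega) (by omega) (by omega) (bm _ (by omega))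
  have g4 : κ ^ (12 * k0 + 1) ≤
      Pr (fun _ => p) S (LRc z.1 (z.1 + ((90 * u : ℕ) : ℤ)) z.2 (z.2 + m)) := by
    have k1 : LRE z.1 (z.1 + ((90 * u : ℕ) : ℤ)) z.2 (z.2 + m) ⊆ S := by
      refine LRE_subset_RE.trans (Finset.Subset.trans ?_ hS)
      unfold bo
      apply RE_subset <;> push_cast <;> omega
    rw [pr_LRc p k1]
    have hw := Pool.Agent.W424.NC.hh_long (hW.anti (show m ≤ 200 * u by omega)) hm (6 * k0)
    have e1 : 2 * (6 * k0) + 1 = 12 * k0 + 1 := by ring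
    rw [e1] at hw
    refine hw.trans ?_
    have hu' : (u : ℤ) = k0 * m := by rw [hu]; push_cast; ring
    apply hh_mono q0 q1
    · push_cast; omega
    · push_cast
      rw [hu']
      nlinarith [show (0 : ℤ) ≤ m by positivity]
    · omega
  have g5 : c0 ≤ Pr (fun _ => p) S (CtP z (a / 2 * (m : ℝ) ^ (91 / 48 : ℝ)) m) := by
    have k1 : Pr (fun _ => p) S (CtP z (a / 2 * (m : ℝ) ^ (91 / 48 : ℝ)) m) =
        Pr (fun _ => p) (sh z S) (fun F => a / 2 * (m : ℝ) ^ (91 / 48 : ℝ) ≤ Yc m F) :=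
      Ex_sh p z S (fun F => ind (a / 2 * (m : ℝ) ^ (91 / 48 : ℝ) ≤ Yc m F))
    rw [k1]
    apply hct p m q0 hNW.hi hm
    · exact hNW.arm (4 * m) (by omega) (by rw [hN]; omega)
    · rw [← sh_bo z (5 * m)]
      exact sh_mono (bm _ (by omega))
  have j1 := Pr_harris ok (CA_incr S z (3 * u) (9 * u)) (CA_incr S z (30 * u) (90 * u))
  have i1 : IncrE S (fun F => CA z (3 * u) (9 * u) F ∧ CA z (30 * u) (90 * u) F) :=
    fun F G h h' hF => ⟨CA_incr S _ _ _ F G h h' hF.1, CA_incr S _ _ _ F G h h' hF.2⟩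
  have j2 := Pr_harris ok i1 (CA_incr S z m (3 * m))
  have i2 : IncrE S (fun F => (CA z (3 * u) (9 * u) F ∧ CA z (30 * u) (90 * u) F) ∧
      CA z m (3 * m) F) :=
    fun F G h h' hF => ⟨i1 F G h h' hF.1, CA_incr S _ _ _ F G h h' hF.2⟩
  have j3 := Pr_harris ok i2 (LRc_incr S z.1 (z.1 + ((90 * u : ℕ) : ℤ)) z.2 (z.2 + m))
  have i3 : IncrE S (fun F => ((CA z (3 * u) (9 * u) F ∧ CA z (30 * u) (90 * u) F) ∧
      CA z m (3 * m) F) ∧ LRc z.1 (z.1 + ((90 * u : ℕ) : ℤ)) z.2 (z.2 + m) F) :=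
    fun F G h h' hF => ⟨i2 F G h h' hF.1, LRc_incr S _ _ _ _ F G h h' hF.2⟩
  have j4 := Pr_harris ok i3 (CtP_incr S z (a / 2 * (m : ℝ) ^ (91 / 48 : ℝ)) m)
  have p4 : 0 ≤ κ ^ 4 := by positivity
  have p5 : 0 ≤ κ ^ (12 * k0 + 1) := by positivity
  have l1 := (mul_le_mul g1 g2 p4 (p4.trans g1)).trans j1
  have l2 := (mul_le_mul l1 g3 p4 ((by positivity : 0 ≤ κ ^ 4 * κ ^ 4).trans l1)).trans j2
  have l3 := (mul_le_mul l2 g4 p5 ((by positivity : 0 ≤ κ ^ 4 * κ ^ 4 * κ ^ 4).trans l2)).trans j3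
  have l4 := (mul_le_mul l3 g5 hc0.le
    ((by positivity : 0 ≤ κ ^ 4 * κ ^ 4 * κ ^ 4 * κ ^ (12 * k0 + 1)).trans l3)).trans j4
  have e : κ ^ (12 * k0 + 13) * c0 = κ ^ 4 * κ ^ 4 * κ ^ 4 * κ ^ (12 * k0 + 1) * c0 := by ring
  rw [e]
  refine l4.trans ?_
  apply Pr_mono ok
  rintro F _ ⟨⟨⟨⟨f1, f2⟩, f3⟩, f4⟩, f5⟩
  have hd := yin_det (z := z) (k0 := k0) (m := m) (F := F)
    (y := a / 2 * (m : ℝ) ^ (91 / 48 : ℝ)) hk hm (by rw [← hu]; exact f1)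
    (by rw [← hu]; exact f2) f3 (by rw [← hu]; exact f4) f5
  rw [← hu] at hd
  exact hd

end Q277.FE.YIN
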