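import Pool.Agent.Q277.FE.LOCV
import Pool.Agent.Q277.FE.YIN

/-!
Project FE, part H-VP: the event of a cell has positive probability.
-/

set_option autoImplicit false

namespace Q277.FE

open Finset H974 Pool.Agent.H160R2.CV Pool.Agent.H160R2.CV.Quad H362P Q78.FE

/-- Averaging over the block. -/
theorem hz_half (hLOC : S_LOC) {p c : ℝ} (h0 : 0 ≤ p) (h1 : p ≤ 1) (hc : 0 ≤ c) {z : Vtx}
    {u m : ℕ} (hu : 1 ≤ u) {S : Finset Edg} (hS : bo z (90 * u) ⊆ S)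
    (h : c ≤ Pr (fun _ => p) S (fun F => (Gd z u F ∧ Lk z u F) ∧
      ∃ v : Vtx, nv (v - z) ≤ m ∧ Hb z u F v)) :
    c / 2 ≤ Pr (fun _ => p) S (fun F => (Gd z u F ∧ Lk z u F) ∧ c / 2 ≤ hz p z u m F) := by
  classical
  have ok := okq h0 h1
  have hB : Bl z u ⊆ S := (bo_le (by omega)).trans hS
  have hSB : S = (S \ Bl z u) ∪ Bl z u := (Finset.sdiff_union_of_subset hB).symm
  have hd : Disjoint (S \ Bl z u) (Bl z u) := Finset.sdiff_disjoint
  have hA : ∀ X G : Finset Edg, X ⊆ S \ Bl z u → G ⊆ Bl z u →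
      ((Gd z u (X ∪ G) ∧ Lk z u (X ∪ G)) ↔ (Gd z u X ∧ Lk z u X)) := by
    intro X G hX hG
    have e : ∀ N : Finset Edg, (X ∪ G) ∩ (N \ bo z (2 * u)) = X ∩ (N \ bo z (2 * u)) := by
      intro N
      ext e
      have h2 : e ∈ G → e ∈ bo z (2 * u) := fun h3 => hG h3
      simp only [Finset.mem_inter, Finset.mem_union, Finset.mem_sdiff]
      tauto
    have k1 := ((hLOC z u hu (X ∪ G) X).1 (e _)).1
    have k2 := (hLOC z u hu (X ∪ G) X).2.1 (e _)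
    rw [k1, k2]
  have hX : ∀ X : Finset Edg, X ⊆ S \ Bl z u → X \ Bl z u = X := by
    intro X hX
    rw [Finset.sdiff_eq_self_iff_disjoint]
    exact Finset.disjoint_of_subset_left hX Finset.sdiff_disjoint
  have e1 : Pr (fun _ => p) S (fun F => (Gd z u F ∧ Lk z u F) ∧
      ∃ v : Vtx, nv (v - z) ≤ m ∧ Hb z u F v) =
      Ex (fun _ => p) (S \ Bl z u) (fun X => ind (Gd z u X ∧ Lk z u X) * hz p z u m X) := by
    unfold Pr
    conv_lhs => rw [hSB]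
    rw [Ex_union hd]
    apply Ex_congr
    intro X hXS
    unfold hz Pr
    rw [← Ex_mul_left]
    apply Ex_congr
    intro G hG
    rw [hX X hXS, ind_and, ind_congr (hA X G hXS hG)]
  have e2 : Pr (fun _ => p) (S \ Bl z u)
      (fun F => (Gd z u F ∧ Lk z u F) ∧ c / 2 ≤ hz p z u m F) ≤
      Pr (fun _ => p) S (fun F => (Gd z u F ∧ Lk z u F) ∧ c / 2 ≤ hz p z u m F) := by
    apply Pr_mono_set ok Finset.sdiff_subset
    rintro F G hFG - ⟨⟨k1, k2⟩, k3⟩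
    have hm := (hLOC z u hu F G).2.2.2 hFG
    exact ⟨⟨hm.1 k1, hm.2.1 k2⟩, k3.trans (hz_mono hLOC h0 h1 hu hFG)⟩
  have e3 : Ex (fun _ => p) (S \ Bl z u)
      (fun X => ind (Gd z u X ∧ Lk z u X) * hz p z u m X) ≤
      Pr (fun _ => p) (S \ Bl z u)
        (fun F => (Gd z u F ∧ Lk z u F) ∧ c / 2 ≤ hz p z u m F) + c / 2 := by
    have e4 : Pr (fun _ => p) (S \ Bl z u)
        (fun F => (Gd z u F ∧ Lk z u F) ∧ c / 2 ≤ hz p z u m F) + c / 2 =
        Ex (fun _ => p) (S \ Bl z u) (fun F =>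
          ind ((Gd z u F ∧ Lk z u F) ∧ c / 2 ≤ hz p z u m F) + c / 2) := by
      rw [Ex_add, Ex_const]
      rfl
    rw [e4]
    apply Ex_mono ok
    intro F _
    have z0 : 0 ≤ hz p z u m F := Pr_nonneg ok _ _
    have z1 : hz p z u m F ≤ 1 := Pr_le_one ok _ _
    by_cases ha : Gd z u F ∧ Lk z u F
    · rw [ind_of ha, one_mul]
      by_cases hb : c / 2 ≤ hz p z u m F
      · rw [ind_of ⟨ha, hb⟩]
        linarith
      · rw [ind_not_of (fun h => hb h.2)]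
        push Not at hb
        linarith
    · rw [ind_not_of ha, zero_mul]
      have := ind_nonneg ((Gd z u F ∧ Lk z u F) ∧ c / 2 ≤ hz p z u m F)
      linarith
  rw [e1] at h
  linarith

theorem t_VP (hLOC : S_LOC) : S_VP := by
  intro k0 hk κ a hκ ha
  obtain ⟨δ, c, hδ, hc, hY⟩ := YIN.t_YIN hLOC k0 hk κ a hκ ha
  refine ⟨min 1 (κ ^ 2 * c / 2), by positivity, min_le_left _ _, ?_⟩
  intro p m hm hNW
  have hW := hNW.win
  have q0 : 0 ≤ p := by linarith [hNW.lo]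
  have q1 : p ≤ 1 := by linarith [hNW.hi]
  have ok := okq q0 q1
  have hκ1 : κ ≤ 1 / 2 := hW.kle
  refine ⟨by positivity, min_le_left _ _, ?_⟩
  intro z S hS
  have hN : 200 * k0 * m = 200 * (k0 * m) := by ring
  rw [hN] at hW
  have hY' := hY p m hm hNW z S ((bo_le (by omega)).trans hS)
  obtain ⟨u, hu⟩ : ∃ u : ℕ, u = k0 * m := ⟨_, rfl⟩
  have h3m : 3 * m ≤ u := by rw [hu]; exact Nat.mul_le_mul_right _ hk
  have hu1 : 1 ≤ u := by omega
  rw [← hu] at hS hW hY' ⊢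
  have m0 : (0 : ℝ) < (m : ℝ) ^ (91 / 48 : ℝ) := by
    have : (0 : ℝ) < m := by exact_mod_cast hm
    positivity
  have g1 : c ≤ Pr (fun _ => p) S (fun F => (Gd z u F ∧ Lk z u F) ∧
      ∃ v : Vtx, nv (v - z) ≤ m ∧ Hb z u F v) := by
    refine hY'.trans (Pr_mono ok ?_)
    rintro F _ ⟨k1, k2, k3⟩
    refine ⟨⟨k1, k2⟩, ?_⟩
    have k4 : 0 < Yi z u m F := lt_of_lt_of_le (by positivity) k3
    by_contra hno
    push Not at hno
    have k5 : Yi z u m F = 0 := by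
      unfold Yi
      apply Finset.sum_eq_zero
      intro v hv
      apply ind_not_of
      apply hno v
      unfold bxz at hv
      rw [Finset.mem_product, Finset.mem_Icc, Finset.mem_Icc] at hv
      unfold nv
      simp only [Prod.fst_sub, Prod.snd_sub]
      omega
    linarith
  have g2 := hz_half hLOC q0 q1 hc.le hu1 ((bo_le (by omega)).trans hS) g1
  obtain ⟨c0, hc0⟩ : ∃ c0 : ℝ, c0 = min 1 (κ ^ 2 * c / 2) := ⟨_, rfl⟩
  have hc0' : c0 ≤ κ ^ 2 * c / 2 := by rw [hc0]; exact min_le_right _ _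
  have hc0'' : c0 ≤ c / 2 := by
    refine hc0'.trans ?_
    have : κ ^ 2 ≤ 1 := by nlinarith
    nlinarith
  rw [← hc0]
  have g3 : c / 2 ≤ Pr (fun _ => p) S (fun F => (Gd z u F ∧ Lk z u F) ∧ c0 ≤ hz p z u m F) := by
    refine g2.trans (Pr_mono ok ?_)
    rintro F _ ⟨k1, k2⟩
    exact ⟨k1, hc0''.trans k2⟩
  have hh1 : κ ≤ hh p (194 * (u : ℤ)) (20 * u) := by
    refine (hW.pri (20 * u) (by omega) (by omega)).trans (hh_mono q0 q1 ?_ ?_ ?_)
    · omega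
    · push_cast; omega
    · push_cast; omega
  have g4 : κ ≤ Pr (fun _ => p) S (Lh z u) := by
    have k1 : LRE (z.1 + 3 * u) (z.1 + 197 * u) z.2 (z.2 + 20 * u) ⊆ S :=
      (Lh_sub hu1).trans (Finset.sdiff_subset.trans hS)
    have k2 := pr_LRc p k1
    have k3 : z.1 + 197 * (u : ℤ) - (z.1 + 3 * u) = 194 * u := by ring
    have k4 : z.2 + 20 * (u : ℤ) - z.2 = 20 * u := by ring
    rw [k3, k4] at k2
    exact hh1.trans (le_of_eq k2.symm)
  have g5 : κ ≤ Pr (fun _ => p) S (Lv z u) := by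
    have k1 : TBE z.1 (z.1 + 20 * u) (z.2 + 3 * u) (z.2 + 197 * u) ⊆ S :=
      (Lv_sub hu1).trans (Finset.sdiff_subset.trans hS)
    have k2 := pr_TBc p k1
    have k3 : z.2 + 197 * (u : ℤ) - (z.2 + 3 * u) = 194 * u := by ring
    have k4 : z.1 + 20 * (u : ℤ) - z.1 = 20 * u := by ring
    rw [k3, k4] at k2
    exact hh1.trans (le_of_eq k2.symm)
  have i1 : IncrE S (fun F => (Gd z u F ∧ Lk z u F) ∧ c0 ≤ hz p z u m F) := by
    rintro F G hFG - ⟨⟨k1, k2⟩, k3⟩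
    have hm := (hLOC z u hu1 F G).2.2.2 hFG
    exact ⟨⟨hm.1 k1, hm.2.1 k2⟩, k3.trans (hz_mono hLOC q0 q1 hu1 hFG)⟩
  have i2 : IncrE S (Lh z u) := fun F G hFG _ h => LRc.mono hFG h
  have i3 : IncrE S (Lv z u) := fun F G hFG _ h => TBc.mono hFG h
  have i12 : IncrE S (fun F => ((Gd z u F ∧ Lk z u F) ∧ c0 ≤ hz p z u m F) ∧ Lh z u F) :=
    fun F G hFG hG h => ⟨i1 F G hFG hG h.1, i2 F G hFG hG h.2⟩
  have j1 := Pr_harris ok i1 i2
  have j2 := Pr_harris ok i12 i3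
  have l1 := (mul_le_mul g3 g4 hκ.le ((by positivity : 0 ≤ c / 2).trans g3)).trans j1
  have l2 := (mul_le_mul l1 g5 hκ.le ((by positivity : 0 ≤ c / 2 * κ).trans l1)).trans j2
  calc c0 ≤ κ ^ 2 * c / 2 := hc0'
    _ = c / 2 * κ * κ := by ring
    _ ≤ _ := l2
    _ ≤ _ := by
      apply Pr_mono ok
      rintro F _ ⟨⟨⟨⟨k1, k2⟩, k3⟩, k4⟩, k5⟩
      exact ⟨k1, k2, k3, k4, k5⟩

end Q277.FE
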